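import Pool.Agent.H74.Tri.Geo
import Pool.Agent.H93.SM.Iface

set_option autoImplicit false

/-!
# MP_2e6055, module INST (helper75), 1: definitions on the level of one state, closed statements

State = `(U, col)` with `St U col`; only the colours of `col` off `U` (next to `U`) matter; tip `p`.
The interface in the configuration `ω` (= random on a part of `U`, `col` elsewhere) is `orb ω p`.
-/

namespace Pool.Agent.H75.Lv

open Pool.Agent.H7.UC Pool.Agent.H74.Tri Pool.Agent.H75.Perc Pool.Agent.H93.SM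
open Pool.Agent.H89.Per (ANN annS)

/-- lattice box (parallelogram) around a face -/
noncomputable def Bx (v : Fc) (s : ℤ) : Finset Fc :=
  Finset.Icc (v.1 - s) (v.1 + s) ×ˢ Finset.Icc (v.2 - s) (v.2 + s)

/-- the colouring which is `w` on `D` and `col` elsewhere -/
def mixc (D w : Finset Fc) (col : Fc → Bool) : Fc → Bool :=
  fun f => if f ∈ D then decide (f ∈ w) else col f

/-- the interface from `p` has not left `U` before the index `i` -/
def Ins (U : Finset Fc) (ω : Fc → Bool) (p : Pos) (i : ℕ) : Prop :=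
  ∀ i', 1 ≤ i' → i' ≤ i → inE U (pe (orb ω p i'))

/-- at the index `i` the new face `f` of `U` is ahead of the interface -/
def Ask (U : Finset Fc) (ω : Fc → Bool) (p : Pos) (i : ℕ) (f : Fc) : Prop :=
  Ins U ω p i ∧ ph (orb ω p i) = f ∧ f ∈ U ∧ f ∉ Rev ω p i

/-- the faces of `U` explored before the index `i` -/
noncomputable def expl (U : Finset Fc) (ω : Fc → Bool) (p : Pos) (i : ℕ) : Finset Fc := by
  classical exact U.filter (fun f => f ∈ Rev ω p i)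

/-- the component of `z` in the unexplored part of `U` -/
noncomputable def unx (U : Finset Fc) (ω : Fc → Bool) (p : Pos) (i : ℕ) (z : Fc) : Finset Fc :=
  comp (U \ expl U ω p i) z

/-- `i` is the first index at which a new face of `S` is ahead -/
def First (U : Finset Fc) (ω : Fc → Bool) (p : Pos) (S : Finset Fc) (i : ℕ) : Prop :=
  (∃ f ∈ S, Ask U ω p i f) ∧ ∀ i' < i, ∀ f ∈ S, ¬ Ask U ω p i' f

/-- the interface from the tip of `U` sees a face of `S`: probability, all of `U` random -/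
noncomputable def vis (U : Finset Fc) (col : Fc → Bool) (S : Finset Fc) : ℝ :=
  Pr U (fun w => ∃ p i f, IsTip U col p ∧ f ∈ S ∧ Ask U (mixc U w col) p i f)

/-- circuit in the annulus `w ≤ |f - c|_∞ ≤ 3 w` (helper89's four long crossings) -/
def Circ (c : Fc) (w : ℕ) (C : Finset Fc) : Prop := ANN c w (fun f => decide (f ∈ C))

/-- POCKET: every blocking set of the annulus (helper74's `Bls`: every path from `|. - c| < w` to
`|. - c| > 3 w` meets it), if its faces in `U` are black, encloses `z0` in `Bx z0 R`. -/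
def Pock (U : Finset Fc) (col : Fc → Bool) (z0 c : Fc) (w : ℕ) (R : ℤ) : Prop :=
  ∀ C : Set Fc, C ⊆ annS c w → Bls c w C → comp (U \ KC U col C) z0 ⊆ Bx z0 R

/-- the geometric constants, in units `u`: end box `h`, annuli inside `Bx z0 (N h)`, scale `2 N h`,
annuli `1 ≤ . ≤ 3`, centres of the annuli `z0 +` the eight images of `(px, py)`, squares of half side
`h / 8`, radius of the pocket `17 N h`. -/
structure Gm where
  N : ℤ
  h : ℤ
  px : ℤ
  py : ℤ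

/-- the conditions on the geometric constants -/
structure Gm.Ok (g : Gm) : Prop where
  N8 : 64 ≤ g.N
  h8 : 8 ∣ g.h
  h64 : 64 ≤ g.h
  out : g.N * g.h / 4 + 4 ≤ max |g.px| |g.py|
  inn : max |g.px| |g.py| + 4 ≤ g.N * g.h

/-- the eight images of `(px, py)` under the symmetries of the square -/
def Gm.dv (g : Gm) (d : Fin 8) : ℤ × ℤ :=
  ![(g.px, g.py), (-g.px, g.py), (g.px, -g.py), (-g.px, -g.py),
    (g.py, g.px), (-g.py, g.px), (g.py, -g.px), (-g.py, -g.px)] d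

/-- the centres of the eight annuli -/
def Gm.ce (g : Gm) (d : Fin 8) (u : ℤ) (z0 : Fc) : Fc :=
  (z0.1 + (g.dv d).1 * u, z0.2 + (g.dv d).2 * u)

/-- ADMISSIBLE: the attempt is made from the state `(U, col)` (with the tip in `Bx z0 (h u)`). -/
def Adm (g : Gm) (s3 : ℝ) (u : ℕ) (U : Finset Fc) (col : Fc → Bool) (z0 : Fc) : Prop :=
  Bx z0 (g.h * u) ⊆ U ∧ (∃ d, Pock U col z0 (g.ce d u z0) u (17 * g.N * g.h * u)) ∧
  ∀ v ∈ Bx z0 (g.h * u / 8), s3 ≤ vis U col (Bx v (g.h * u / 100))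

/-- **RET** (helper58): leave `Bx v R` and come back to `Bx v ρf`; the colours off `Bx v R` are
arbitrary. -/
def RET : Prop := ∃ C c : ℝ, 0 < C ∧ 0 < c ∧ ∀ M : ℝ, 1 ≤ M → ∃ K : ℤ, ∀ (v : Fc) (ρf ρ1 ρ R : ℤ),
  K ≤ ρf → ρf ≤ ρ1 → (ρ1 : ℝ) ≤ M * ρf → ρ1 ≤ ρ → ρ ≤ R → ∀ (U : Finset Fc) (col : Fc → Bool)
  (p : Pos), St U col → IsTip U col p → ph p ∈ Bx v ρ → Jn {a | a ∈ U ∧ a ∈ Bx v ρ} v (ph p) →
  Bx v ρ1 ⊆ U →
  Pr (U ∩ Bx v R) (fun w => ∃ i i' f g, i < i' ∧ Ask U (mixc (U ∩ Bx v R) w col) p i f ∧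
    f ∉ Bx v R ∧ Ask U (mixc (U ∩ Bx v R) w col) p i' g ∧ g ∈ Bx v ρf) ≤
  C * ((ρ : ℝ) / R) ^ c * ((ρf : ℝ) / ρ1) ^ ((1 / 4) : ℝ)

/-- **F5** (helper53, helper87): an admissible pocket from every central state. -/
def F5 : Prop := ∃ s3 : ℝ, 0 < s3 ∧ ∃ N0 : ℤ, ∀ N : ℤ, N0 ≤ N → ∃ h0 : ℤ, ∀ h : ℤ, h0 ≤ h → 8 ∣ h →
  ∃ g : Gm, g.N = N ∧ g.h = h ∧ g.Ok ∧ ∀ s0 : ℝ, 0 < s0 → ∃ pK : ℝ, 0 < pK ∧ ∃ u0 : ℕ,
  ∀ u : ℕ, u0 ≤ u → ∀ (U : Finset Fc) (col : Fc → Bool) (v z0 : Fc) (p : Pos), St U col →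
  IsTip U col p → ph p ∈ Bx v (2 * N * h * u) → Bx v (2 * N * h * u) ⊆ U → v ∈ Bx z0 (h * u / 8) →
  s0 ≤ ((2 * N * h * u : ℤ) : ℝ) ^ ((1 / 4) : ℝ) * gv U col v →
  pK ≤ Pr U (fun w => ∃ i, First U (mixc U w col) p (Bx z0 (h * u)) i ∧
    Adm g s3 u (unx U (mixc U w col) p i z0) (mixc U w col) z0)

/-- **CIRC** (helper52): eight circuits have positive probability. -/
def CIRC : Prop := ∃ c0 : ℝ, 0 < c0 ∧ ∃ w0 : ℕ, ∀ w : ℕ, w0 ≤ w → ∀ (c : Fin 8 → Fc) (E : Finset Fc),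
  (∀ d f, f ∈ annS (c d) w → f ∈ E) → c0 ≤ Pr E (fun C => ∀ d, Circ (c d) w C)

theorem dv_abs (g : Gm) (d : Fin 8) : (|(g.dv d).1| = |g.px| ∧ |(g.dv d).2| = |g.py|) ∨
    (|(g.dv d).1| = |g.py| ∧ |(g.dv d).2| = |g.px|) := by
  unfold Gm.dv
  fin_cases d <;> simp

/-- the centre in the coordinates given by an exchange of the axes and two signs -/
theorem exists_ce (g : Gm) (sw : Bool) {e1 e2 : ℤ} (h1 : e1 = 1 ∨ e1 = -1) (h2 : e2 = 1 ∨ e2 = -1)
    (u : ℤ) (z0 : Fc) : ∃ d, g.ce d u z0 =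
      if sw = true then (z0.1 + e2 * (g.py * u), z0.2 + e1 * (g.px * u))
      else (z0.1 + e1 * (g.px * u), z0.2 + e2 * (g.py * u)) := by
  unfold Gm.ce Gm.dv
  cases sw <;> rcases h1 with rfl | rfl <;> rcases h2 with rfl | rfl
  · exact ⟨0, by simp⟩
  · exact ⟨2, by simp⟩
  · exact ⟨1, by simp⟩
  · exact ⟨3, by simp⟩
  · exact ⟨4, by simp⟩
  · exact ⟨5, by simp⟩
  · exact ⟨6, by simp⟩
  · exact ⟨7, by simp⟩

theorem mem_Bx {v f : Fc} {s : ℤ} : f ∈ Bx v s ↔ |f.1 - v.1| ≤ s ∧ |f.2 - v.2| ≤ s := by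
  unfold Bx
  rw [Finset.mem_product, Finset.mem_Icc, Finset.mem_Icc, abs_le, abs_le]
  constructor
  · rintro ⟨⟨h1, h2⟩, h3, h4⟩
    refine ⟨⟨?_, ?_⟩, ?_, ?_⟩ <;> linarith
  · rintro ⟨⟨h1, h2⟩, h3, h4⟩
    refine ⟨⟨?_, ?_⟩, ?_, ?_⟩ <;> linarith

theorem mem_expl {U : Finset Fc} {ω : Fc → Bool} {p : Pos} {i : ℕ} {f : Fc} :
    f ∈ expl U ω p i ↔ f ∈ U ∧ f ∈ Rev ω p i := by
  classical
  unfold expl
  rw [Finset.mem_filter]

end Pool.Agent.H75.Lv
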