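import Pool.Agent.H75.Lv.Site2

set_option autoImplicit false

/-!
# MP_2e6055, module INST (helper75), 6: the instance of `Per.Sys` for one site
-/

namespace Pool.Agent.H75.Lv

open Pool.Agent.H7.UC Pool.Agent.H74.Tri Pool.Agent.H75.Perc Pool.Agent.H89.Per
open Pool.Agent.H75.Per (CX IsStop Meas agree_mono agree_iff)
open Classical

attribute [-instance] instDecidableEqSum

variable {c : Cf}

/-- the region revealed at the attempt -/
noncomputable def AR (v : Fc) (j0 k : ℕ) (ω : Finset c.al) : Finset c.al :=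
  if 1 ≤ j0 - k then Rg (c.En (j0 - k) (c.sq (j0 - k) v)) ω else Rg (Bx v (c.rho (j0 - k))) ω

/-- what the attempt reads -/
noncomputable def FR (v : Fc) (j0 k : ℕ) (ω : Finset c.al) : Finset c.al :=
  Finset.univ.filter (fun x => match x with
    | Sum.inl y => 1 ≤ j0 - k ∧ em y ∈ c.aS (j0 - k) (c.sq (j0 - k) v) ∧
        em y ∉ Rev (Om ω) p0 (fi (c.En (j0 - k) (c.sq (j0 - k) v)) ω)
    | Sum.inr (κ, y) => 1 ≤ j0 - k ∧ (c.sc κ = j0 - k ∧ c.ct κ = c.sq (j0 - k) v) ∧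
        em y ∈ c.aS (j0 - k) (c.sq (j0 - k) v) ∧
        em y ∈ Rev (Om ω) p0 (fi (c.En (j0 - k) (c.sq (j0 - k) v)) ω))

/-- the far bits -/
noncomputable def FF (v : Fc) (j0 k : ℕ) : Finset c.al :=
  Finset.univ.filter (fun x => match x with
    | Sum.inl y => em y ∉ Bx v (c.L * c.rho (j0 - k))
    | Sum.inr (κ, _) => j0 - k < c.sc κ)

theorem mem_FR_inl {v : Fc} {j0 k : ℕ} {ω : Finset c.al} {y : c.V} : Sum.inl y ∈ FR v j0 k ω ↔
    1 ≤ j0 - k ∧ em y ∈ c.aS (j0 - k) (c.sq (j0 - k) v) ∧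
        em y ∉ Rev (Om ω) p0 (fi (c.En (j0 - k) (c.sq (j0 - k) v)) ω) := by
  unfold FR
  rw [Finset.mem_filter]
  simp

theorem mem_FR_inr {v : Fc} {j0 k : ℕ} {ω : Finset c.al} {κ : c.Lab} {y : c.V} :
    Sum.inr (κ, y) ∈ FR v j0 k ω ↔ 1 ≤ j0 - k ∧ (c.sc κ = j0 - k ∧ c.ct κ = c.sq (j0 - k) v) ∧
        em y ∈ c.aS (j0 - k) (c.sq (j0 - k) v) ∧
        em y ∈ Rev (Om ω) p0 (fi (c.En (j0 - k) (c.sq (j0 - k) v)) ω) := by
  unfold FR
  rw [Finset.mem_filter]
  simp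

theorem mem_FF_inl {v : Fc} {j0 k : ℕ} {y : c.V} : (Sum.inl y : c.al) ∈ FF v j0 k ↔
    em y ∉ Bx v (c.L * c.rho (j0 - k)) := by
  unfold FF
  rw [Finset.mem_filter]
  simp

theorem mem_FF_inr {v : Fc} {j0 k : ℕ} {κ : c.Lab} {y : c.V} :
    (Sum.inr (κ, y) : c.al) ∈ FF v j0 k ↔ j0 - k < c.sc κ := by
  unfold FF
  rw [Finset.mem_filter]
  simp

theorem sc_pos (κ : c.Lab) : 1 ≤ c.sc κ := κ.2.2.1

theorem Bx_mono {v : Fc} {s t : ℤ} (h : s ≤ t) : Bx v s ⊆ Bx v t := by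
  intro f hf
  rw [mem_Bx] at hf ⊢
  exact ⟨hf.1.trans h, hf.2.trans h⟩

theorem Bx_sub {v z : Fc} {s t q : ℤ} (hv : v ∈ Bx z q) (h : s + q ≤ t) : Bx v s ⊆ Bx z t := by
  intro f hf
  rw [mem_Bx] at hf hv ⊢
  have h1 := abs_add_le (f.1 - v.1) (v.1 - z.1)
  have h2 := abs_add_le (f.2 - v.2) (v.2 - z.2)
  rw [show f.1 - v.1 + (v.1 - z.1) = f.1 - z.1 by ring] at h1
  rw [show f.2 - v.2 + (v.2 - z.2) = f.2 - z.2 by ring] at h2
  constructor <;> linarith [hf.1, hf.2, hv.1, hv.2]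

theorem Bx_symm {v z : Fc} {q : ℤ} (hv : v ∈ Bx z q) : z ∈ Bx v q := by
  rw [mem_Bx] at hv ⊢
  rw [abs_sub_comm z.1, abs_sub_comm z.2]
  exact hv

/-- the end box is inside `Bx v ρ_j` -/
theorem En_sub (h : c.Ok) (j : ℕ) (v : Fc) : c.En j (c.sq j v) ⊆ Bx v (c.rho j) := by
  apply Bx_sub (Bx_symm (sq_near h j v))
  have h1 := h.hs8 j
  have h2 := h.hu_le_rho j
  have h3 := h.hs_pos j
  have h4 := h.hu_pos j
  linarith

/-- `Bx v ρ_j` is inside the end box of the scale `j + 1` -/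
theorem sub_En (h : c.Ok) (j : ℕ) (v : Fc) : Bx v (c.rho j) ⊆ c.En (j + 1) (c.sq (j + 1) v) := by
  apply Bx_sub (sq_near h (j + 1) v)
  have h1 := h.hs8 (j + 1)
  have h2 := h.Lrho_step j
  have h3 := h.rho_le_L j
  have h4 := h.hs_pos (j + 1)
  have h5 := h.u_le_hu (j + 1)
  have h6 := h.rho_pos j
  have h7 := h.un_pos (j + 1)
  have h8 := h.hu_pos (j + 1)
  linarith

theorem annS_far (h : c.Ok) {j : ℕ} {v f : Fc}
    (hf : f ∈ c.aS (j + 1) (c.sq (j + 1) v)) : f ∉ Bx v (c.L * c.rho j) := by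
  intro hB
  have h1 := (ann_far h hf).2
  have h2 := sq_near h (j + 1) v
  rw [mem_Bx] at hB h2
  have h3 := h.Lrho_step j
  have h4 := h.hs8 (j + 1)
  have h5 := h.u_le_hu (j + 1)
  have h6 := h.un_pos (j + 1)
  have h7 := h.g.N8
  have h8 : 64 * (c.g.h * c.un (j + 1)) ≤ c.g.N * c.g.h * c.un (j + 1) := by
    have := h.hu_pos (j + 1)
    nlinarith
  have t1 := abs_add_le (f.1 - v.1) (v.1 - (c.sq (j + 1) v).1)
  have t2 := abs_add_le (f.2 - v.2) (v.2 - (c.sq (j + 1) v).2)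
  rw [show f.1 - v.1 + (v.1 - (c.sq (j + 1) v).1) = f.1 - (c.sq (j + 1) v).1 by ring] at t1
  rw [show f.2 - v.2 + (v.2 - (c.sq (j + 1) v).2) = f.2 - (c.sq (j + 1) v).2 by ring] at t2
  rcases h1 with h1 | h1
  · linarith [hB.1, h2.1]
  · linarith [hB.2, h2.2]

theorem annS_near (h : c.Ok) {j : ℕ} {v f : Fc}
    (hf : f ∈ c.aS j (c.sq j v)) : f ∈ Bx v (c.rho j) := by
  have h1 := (ann_far h hf).1
  have h2 := sq_near h j v
  rw [mem_Bx] at h2 ⊢
  have h4 := h.hs8 j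
  have h6 := h.un_pos j
  have h7 := h.hu_le_rho j
  have h8 : c.rho j = 2 * (c.g.N * c.g.h * c.un j) := by unfold Cf.rho; ring
  have h9 := h.u_le_hu j
  have t1 := abs_add_le (f.1 - (c.sq j v).1) ((c.sq j v).1 - v.1)
  have t2 := abs_add_le (f.2 - (c.sq j v).2) ((c.sq j v).2 - v.2)
  rw [show f.1 - (c.sq j v).1 + ((c.sq j v).1 - v.1) = f.1 - v.1 by ring, abs_sub_comm (c.sq j v).1 v.1] at t1
  rw [show f.2 - (c.sq j v).2 + ((c.sq j v).2 - v.2) = f.2 - v.2 by ring, abs_sub_comm (c.sq j v).2 v.2] at t2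
  constructor
  · linarith [h1.1, h2.1]
  · linarith [h1.2, h2.2]

theorem mad_agr (hc : c.Ok) (hA : ADMC) {v : Fc} {j0 k : ℕ} {ω ω' : Finset c.al}
    (h : Agr (Om ω) (Om ω') (fi (c.En (j0 - k) (c.sq (j0 - k) v)) ω)) :
    mad v j0 k ω' ↔ mad v j0 k ω := by
  unfold mad
  have e := fi_agr hc h
  rw [e]
  have e2 : hit (c.En (j0 - k) (c.sq (j0 - k) v)) ω' ↔
      hit (c.En (j0 - k) (c.sq (j0 - k) v)) ω := by
    rw [hit_iff hc, hit_iff hc, e]
    constructor
    · rintro ⟨f, hf, h3⟩; exact ⟨f, hf, (h.asks f).1 h3⟩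
    · rintro ⟨f, hf, h3⟩; exact ⟨f, hf, (h.asks f).2 h3⟩
  rw [e2, Launch_agr hA h]

/-- the system of the site `v` with top scale `j0` -/
noncomputable def SY (c : Cf) (hc : c.Ok) (hA : ADMC) (v : Fc) (j0 : ℕ) :
    Per.Sys (Finset.univ : Finset c.al) where
  T := fun k => Rg (Bx v (c.rho (j0 - k)))
  A := AR v j0
  alive := alv v j0
  made := mad v j0
  Fr := FR v j0
  succ := suc v j0
  far := FF v j0
  stopT := fun k => stop_Rg hc _
  stopA := by
    intro k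
    have e : AR (c := c) v j0 k = if 1 ≤ j0 - k then Rg (c.En (j0 - k) (c.sq (j0 - k) v))
        else Rg (Bx v (c.rho (j0 - k))) := by
      funext ω
      unfold AR
      split_ifs <;> rfl
    rw [e]
    split_ifs
    · exact stop_Rg hc _
    · exact stop_Rg hc _
  TE := fun _ _ _ => Finset.subset_univ _
  TA := by
    intro k ω _
    unfold AR
    split_ifs with h
    · exact Rg_mono hc (En_sub hc _ v) ω
    · exact Finset.Subset.refl _
  AT := by
    intro k ω _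
    unfold AR
    split_ifs with h
    · have e : j0 - k = j0 - (k + 1) + 1 := by omega
      rw [e]
      exact Rg_mono hc (sub_En hc _ v) ω
    · have e : j0 - (k + 1) = j0 - k := by omega
      rw [e]
  mAlive := fun k => meas_hit hc _
  mMade := by
    intro k
    by_cases h : 1 ≤ j0 - k
    · have e : AR (c := c) v j0 k = Rg (c.En (j0 - k) (c.sq (j0 - k) v)) := by
        funext ω; unfold AR; rw [if_pos h]
      rw [e]
      exact Meas_Rg hc fun ω ω' h1 _ => propext (mad_agr hc hA h1)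
    · intro ω _ ω' _ _
      have e1 : ¬ mad v j0 k ω := fun h' => h h'.1
      have e2 : ¬ mad v j0 k ω' := fun h' => h h'.1
      exact propext ⟨fun h' => absurd h' e2, fun h' => absurd h' e1⟩
  mFr := by
    intro k
    by_cases h : 1 ≤ j0 - k
    · have e : AR (c := c) v j0 k = Rg (c.En (j0 - k) (c.sq (j0 - k) v)) := by
        funext ω; unfold AR; rw [if_pos h]
      rw [e]
      refine Meas_Rg hc fun ω ω' h1 h2 => ?_
      ext x
      rcases x with y | ⟨κ, y⟩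
      · rw [mem_FR_inl, mem_FR_inl, h2, h1.Rev]
      · rw [mem_FR_inr, mem_FR_inr, h2, h1.Rev]
    · intro ω _ ω' _ _
      ext x
      rcases x with y | ⟨κ, y⟩
      · rw [mem_FR_inl, mem_FR_inl]
        exact ⟨fun h' => absurd h'.1 h, fun h' => absurd h'.1 h⟩
      · rw [mem_FR_inr, mem_FR_inr]
        exact ⟨fun h' => absurd h'.1 h, fun h' => absurd h'.1 h⟩
  mSucc := by
    intro k ω _ ω' _ h1
    by_cases h : 1 ≤ j0 - k
    swap
    · have e : ∀ ω : Finset c.al, ¬ suc v j0 k ω := by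
        rintro ω ⟨κ, h2, _⟩
        have := sc_pos κ
        omega
      exact propext ⟨fun h' => absurd h' (e _), fun h' => absurd h' (e _)⟩
    have hAR : AR v j0 k ω = Rg (c.En (j0 - k) (c.sq (j0 - k) v)) ω := by
      unfold AR; rw [if_pos h]
    have h1' : ω' ∩ (AR v j0 k ω ∪ FR v j0 k ω) = ω ∩ (AR v j0 k ω ∪ FR v j0 k ω) := h1
    have hg : Agr (Om ω) (Om ω') (fi (c.En (j0 - k) (c.sq (j0 - k) v)) ω) := by
      refine agr_of (R := AR v j0 k ω ∪ FR v j0 k ω) (fun x hx => ?_) h1'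
      rw [hAR]
      exact Finset.mem_union_left _ (mem_Rg.2 hx)
    apply propext
    unfold suc
    rw [fi_agr hc hg, XX_agr hg]
    refine exists_congr fun κ => and_congr_right fun h2 => and_congr_right fun h3 => ?_
    refine AN_congr fun f hf => ?_
    refine ext_eq fun x hx => ?_
    subst hx
    unfold mix
    by_cases hxX : x ∈ XX ω (fi (c.En (j0 - k) (c.sq (j0 - k) v)) ω)
    · rw [if_pos hxX, if_pos hxX]
      have h4 : (Sum.inr (κ, x) : c.al) ∈ AR v j0 k ω ∪ FR v j0 k ω :=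
        Finset.mem_union_right _ (mem_FR_inr.2 ⟨h, ⟨h2, h3⟩, hf, mem_XX.1 hxX⟩)
      have h5 := agree_iff.1 h1' _ h4
      simp only [h5]
    · rw [if_neg hxX, if_neg hxX]
      have h4 : (Sum.inl x : c.al) ∈ AR v j0 k ω ∪ FR v j0 k ω :=
        Finset.mem_union_right _ (mem_FR_inl.2 ⟨h, hf, fun h' => hxX (mem_XX.2 h')⟩)
      have h5 := agree_iff.1 h1' _ h4
      unfold b1
      simp only [h5]
  aliveS := by
    intro k ω _ h
    exact hit_mono (Bx_mono (hc.rho_mono (by omega))) h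
  madeA := by
    intro k ω _ h
    exact hit_mono (En_sub hc _ v) h.2.1
  FrFar := by
    intro k ω _ h x hx
    have e : j0 - k = j0 - (k + 1) + 1 := by have := h.1; omega
    rcases x with y | ⟨κ, y⟩
    · rw [mem_FR_inl] at hx
      rw [mem_FF_inl]
      rw [e] at hx
      exact annS_far hc hx.2.1
    · rw [mem_FR_inr] at hx
      rw [mem_FF_inr]
      omega
  FrNear := by
    intro k ω _ h
    rw [Finset.disjoint_left]
    intro x hx hx'
    rcases x with y | ⟨κ, y⟩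
    · rw [mem_FR_inl] at hx'
      rw [mem_FF_inl] at hx
      exact hx (Bx_mono (by linarith [hc.rho_le_L (j0 - k), hc.rho_pos (j0 - k)])
        (annS_near hc hx'.2.1))
    · rw [mem_FR_inr] at hx'
      rw [mem_FF_inr] at hx
      omega
  farMono := by
    intro k x hx
    rcases x with y | ⟨κ, y⟩
    · rw [mem_FF_inl] at hx ⊢
      exact fun h => hx (Bx_mono (mul_le_mul_of_nonneg_left (hc.rho_mono (by omega))
        (by linarith [hc.L])) h)
    · rw [mem_FF_inr] at hx ⊢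
      omega

end Pool.Agent.H75.Lv
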