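import Pool.Agent.H75.Lv.Fld

set_option autoImplicit false

/-!
# MP_2e6055, module INST (helper75), 8: from `CX` to averages over the faces of a set
-/

namespace Pool.Agent.H75.Lv

open Pool.Agent.H7.UC Pool.Agent.H74.Tri Pool.Agent.H75.Perc Pool.Agent.H93.SM Pool.Agent.H89.Per
open Pool.Agent.H75.Per (CX IsStop Meas agree_mono agree_iff)
open Pool.Agent.H75
open Classical

attribute [-instance] instDecidableEqSum

section abs

variable {α : Type*} [Fintype α]

/-- given everything off `W` -/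
theorem CX_compl (W ω₁ : Finset α) (F : Finset α → ℝ) :
    CX Finset.univ (Finset.univ \ W) ω₁ F =
      (∑ w ∈ W.powerset, F ((ω₁ \ W) ∪ w)) / 2 ^ W.card := by
  unfold CX
  have e1 : (Finset.univ : Finset α) \ (Finset.univ \ W) = W := by
    ext x; simp
  rw [e1]
  congr 1
  apply Finset.sum_nbij' (fun ω => ω ∩ W) (fun w => (ω₁ \ W) ∪ w)
  · intro ω _
    rw [Finset.mem_powerset]
    exact Finset.inter_subset_right
  · intro w hw
    rw [Finset.mem_powerset] at hw
    rw [Finset.mem_filter, Finset.mem_powerset]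
    refine ⟨Finset.subset_univ _, ?_⟩
    ext x
    have := @hw x
    simp only [Finset.mem_inter, Finset.mem_union, Finset.mem_sdiff, Finset.mem_univ, true_and]
    tauto
  · intro ω hω
    rw [Finset.mem_filter] at hω
    have h := agree_iff.1 hω.2
    ext x
    have := h x
    simp only [Finset.mem_inter, Finset.mem_union, Finset.mem_sdiff, Finset.mem_univ,
      true_and] at this ⊢
    tauto
  · intro w hw
    rw [Finset.mem_powerset] at hw
    ext x
    have := @hw x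
    simp only [Finset.mem_inter, Finset.mem_union, Finset.mem_sdiff]
    tauto
  · intro ω hω
    rw [Finset.mem_filter] at hω
    have h := agree_iff.1 hω.2
    congr 1
    ext x
    have := h x
    simp only [Finset.mem_inter, Finset.mem_union, Finset.mem_sdiff, Finset.mem_univ,
      true_and] at this ⊢
    tauto

/-- conditioning on everything off `W` -/
theorem CX_tower_compl {W S : Finset α} (hd : Disjoint S W) (ω₀ : Finset α) (F : Finset α → ℝ) :
    CX Finset.univ S ω₀ F = CX Finset.univ S ω₀ (fun ω₁ =>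
      (∑ w ∈ W.powerset, F ((ω₁ \ W) ∪ w)) / 2 ^ W.card) := by
  have t := Per.tower (F := F) (E := Finset.univ) (S := S) (ω₀ := ω₀)
    (T := fun _ => Finset.univ \ W) (fun _ _ _ _ _ _ _ => rfl) (fun _ _ _ x hx => by
      rw [Finset.mem_sdiff]
      exact ⟨Finset.mem_univ _, Finset.disjoint_left.1 hd hx⟩)
  rw [t]
  simp only [CX_compl]

end abs

variable {c : Cf}

/-- the bits of the faces of `U'` -/
noncomputable def tr (c : Cf) (U' : Finset Fc) : Finset c.al :=
  (Finset.univ.filter (fun x : c.V => em x ∈ U')).image Sum.inl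

theorem mem_tr_inl {U' : Finset Fc} {x : c.V} : (Sum.inl x : c.al) ∈ tr c U' ↔ em x ∈ U' := by
  unfold tr
  rw [Finset.mem_image]
  constructor
  · rintro ⟨y, hy, h⟩
    rw [Sum.inl.inj h, Finset.mem_filter] at hy
    exact hy.2
  · intro h
    exact ⟨x, Finset.mem_filter.2 ⟨Finset.mem_univ _, h⟩, rfl⟩

theorem not_mem_tr_inr {U' : Finset Fc} {x : c.Lab × c.V} : (Sum.inr x : c.al) ∉ tr c U' := by
  unfold tr
  rw [Finset.mem_image]
  rintro ⟨y, _, h⟩
  cases h

theorem tr_mono {A B : Finset Fc} (h : A ⊆ B) : tr c A ⊆ tr c B := by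
  intro x hx
  rcases x with x | x
  · rw [mem_tr_inl] at hx ⊢; exact h hx
  · exact absurd hx not_mem_tr_inr

theorem card_tr {U' : Finset Fc} (hU : U' ⊆ box c.m c.n) : (tr c U').card = U'.card := by
  have e : U' = (Finset.univ.filter (fun x : c.V => em x ∈ U')).image em := by
    ext f
    rw [Finset.mem_image]
    constructor
    · intro hf
      obtain ⟨x, rfl⟩ := exists_em (hU hf)
      exact ⟨x, Finset.mem_filter.2 ⟨Finset.mem_univ _, hf⟩, rfl⟩
    · rintro ⟨x, hx, rfl⟩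
      exact (Finset.mem_filter.1 hx).2
  have h1 : (tr c U').card = (Finset.univ.filter (fun x : c.V => em x ∈ U')).card :=
    Finset.card_image_of_injective _ Sum.inl_injective
  have h2 : U'.card = (Finset.univ.filter (fun x : c.V => em x ∈ U')).card := by
    conv_lhs => rw [e]
    exact Finset.card_image_of_injective _ (fun x y h => em_inj h)
  rw [h1, h2]

/-- the faces whose bits are in `w` -/
noncomputable def rt (c : Cf) (w : Finset c.al) : Finset Fc :=
  (Finset.univ.filter (fun x : c.V => Sum.inl x ∈ w)).image em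

theorem mem_rt {w : Finset c.al} {x : c.V} : em x ∈ rt c w ↔ Sum.inl x ∈ w := by
  unfold rt
  rw [Finset.mem_image]
  constructor
  · rintro ⟨y, hy, h⟩
    rw [← em_inj h]
    exact (Finset.mem_filter.1 hy).2
  · intro h
    exact ⟨x, Finset.mem_filter.2 ⟨Finset.mem_univ _, h⟩, rfl⟩

theorem rt_sub {U' : Finset Fc} {w : Finset c.al} (h : w ⊆ tr c U') : rt c w ⊆ U' := by
  intro f hf
  unfold rt at hf
  rw [Finset.mem_image] at hf
  obtain ⟨x, hx, rfl⟩ := hf
  exact mem_tr_inl.1 (h (Finset.mem_filter.1 hx).2)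

theorem rt_box (w : Finset c.al) : rt c w ⊆ box c.m c.n := by
  intro f hf
  unfold rt at hf
  rw [Finset.mem_image] at hf
  obtain ⟨x, _, rfl⟩ := hf
  exact em_mem x

theorem tr_rt {U' : Finset Fc} {w : Finset c.al} (h : w ⊆ tr c U') : tr c (rt c w) = w := by
  ext x
  rcases x with x | x
  · rw [mem_tr_inl, mem_rt]
  · exact ⟨fun h' => absurd h' not_mem_tr_inr, fun h' => absurd (h h') not_mem_tr_inr⟩

theorem rt_tr {U' : Finset Fc} (h : U' ⊆ box c.m c.n) : rt c (tr c U') = U' := by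
  ext f
  constructor
  · intro hf
    exact rt_sub (Finset.Subset.refl _) hf
  · intro hf
    obtain ⟨x, rfl⟩ := exists_em (h hf)
    rw [mem_rt, mem_tr_inl]
    exact hf

/-- the sum over the bits of `U'` as a sum over the subsets of `U'` -/
theorem sum_tr {U' : Finset Fc} (hU : U' ⊆ box c.m c.n) (Φ : Finset c.al → ℝ) :
    ∑ w ∈ (tr c U').powerset, Φ w = ∑ w ∈ U'.powerset, Φ (tr c w) := by
  apply Finset.sum_nbij' (fun w => rt c w) (fun w => tr c w)
  · intro w hw
    rw [Finset.mem_powerset] at hw ⊢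
    exact rt_sub hw
  · intro w hw
    rw [Finset.mem_powerset] at hw ⊢
    exact tr_mono hw
  · intro w hw
    rw [Finset.mem_powerset] at hw
    exact tr_rt hw
  · intro w hw
    rw [Finset.mem_powerset] at hw
    exact rt_tr (hw.trans hU)
  · intro w hw
    rw [Finset.mem_powerset] at hw
    rw [tr_rt hw]

/-- the configuration `ω₁` with the bits of `U'` replaced by `w` -/
noncomputable def rep (U' w : Finset Fc) (ω₁ : Finset c.al) : Finset c.al :=
  (ω₁ \ tr c U') ∪ tr c w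

theorem mem_rep_inl {U' w : Finset Fc} {ω₁ : Finset c.al} (hw : w ⊆ U') {x : c.V} :
    Sum.inl x ∈ rep U' w ω₁ ↔ if em x ∈ U' then em x ∈ w else Sum.inl x ∈ ω₁ := by
  unfold rep
  rw [Finset.mem_union, Finset.mem_sdiff, mem_tr_inl, mem_tr_inl]
  by_cases h : em x ∈ U'
  · rw [if_pos h]; tauto
  · rw [if_neg h]
    have : em x ∉ w := fun h' => h (hw h')
    tauto

theorem mem_rep_inr {U' w : Finset Fc} {ω₁ : Finset c.al} {x : c.Lab × c.V} :
    Sum.inr x ∈ rep U' w ω₁ ↔ Sum.inr x ∈ ω₁ := by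
  unfold rep
  rw [Finset.mem_union, Finset.mem_sdiff]
  have h1 := not_mem_tr_inr (c := c) (U' := U') (x := x)
  have h2 := not_mem_tr_inr (c := c) (U' := w) (x := x)
  tauto

/-- the colouring of `rep U' w ω₁` -/
theorem Om_rep {U' w : Finset Fc} {ω₁ : Finset c.al} (hU : U' ⊆ box c.m c.n) (hw : w ⊆ U') :
    Om (rep U' w ω₁) = mixc U' w (Om ω₁) := by
  funext f
  unfold mixc
  by_cases hb : f ∈ box c.m c.n
  · obtain ⟨x, rfl⟩ := exists_em hb
    rw [Om_em, Om_em]
    unfold b1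
    by_cases h : em x ∈ U'
    · rw [if_pos h]
      apply decide_eq_decide.2
      rw [mem_rep_inl hw, if_pos h]
    · rw [if_neg h]
      apply decide_eq_decide.2
      rw [mem_rep_inl hw, if_neg h]
  · rw [Om_out _ hb, if_neg (fun h => hb (hU h)), Om_out _ hb]

/-- `rep U' w ω₁` agrees with `ω₁` off the bits of `U'` -/
theorem rep_agree {U' w : Finset Fc} {ω₁ S : Finset c.al} (hw : w ⊆ U')
    (hS : ∀ x : c.V, em x ∈ U' → Sum.inl x ∉ S) : rep U' w ω₁ ∩ S = ω₁ ∩ S := by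
  rw [agree_iff]
  intro x hx
  rcases x with x | x
  · rw [mem_rep_inl hw, if_neg (fun h => hS x h hx)]
  · exact mem_rep_inr

theorem disj_tr {U' : Finset Fc} {S : Finset c.al}
    (hS : ∀ x : c.V, em x ∈ U' → Sum.inl x ∉ S) : Disjoint S (tr c U') := by
  rw [Finset.disjoint_left]
  intro x hx hx'
  rcases x with x | x
  · exact hS x (mem_tr_inl.1 hx') hx
  · exact not_mem_tr_inr hx'

/-- **`CX` as an average over the faces of `U'`.** -/
theorem CX_rep {U' : Finset Fc} {S ω₀ : Finset c.al} (hU : U' ⊆ box c.m c.n)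
    (hS : ∀ x : c.V, em x ∈ U' → Sum.inl x ∉ S) (F : Finset c.al → ℝ) :
    CX Finset.univ S ω₀ F = CX Finset.univ S ω₀ (fun ω₁ =>
      (∑ w ∈ U'.powerset, F (rep U' w ω₁)) / 2 ^ U'.card) := by
  rw [CX_tower_compl (disj_tr hS)]
  apply Per.CX_congr
  intro ω₁ _ _
  rw [sum_tr hU, card_tr hU]
  rfl

/-- upper bound -/
theorem CX_le_av {U' : Finset Fc} {S ω₀ : Finset c.al} (hU : U' ⊆ box c.m c.n)
    (hS : ∀ x : c.V, em x ∈ U' → Sum.inl x ∉ S) {F : Finset c.al → ℝ} {B : ℝ}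
    (h : ∀ ω₁ : Finset c.al, ω₁ ∩ S = ω₀ ∩ S →
      (∑ w ∈ U'.powerset, F (rep U' w ω₁)) / 2 ^ U'.card ≤ B) :
    CX Finset.univ S ω₀ F ≤ B := by
  rw [CX_rep hU hS]
  exact Per.CX_le (Finset.subset_univ _) (fun ω₁ _ h1 => h ω₁ h1)

/-- lower bound -/
theorem CX_ge_av {U' : Finset Fc} {S ω₀ : Finset c.al} (hU : U' ⊆ box c.m c.n)
    (hS : ∀ x : c.V, em x ∈ U' → Sum.inl x ∉ S) {F : Finset c.al → ℝ} {B : ℝ}
    (h : ∀ ω₁ : Finset c.al, ω₁ ∩ S = ω₀ ∩ S →
      B ≤ (∑ w ∈ U'.powerset, F (rep U' w ω₁)) / 2 ^ U'.card) :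
    B ≤ CX Finset.univ S ω₀ F := by
  rw [CX_rep hU hS, ← Per.CX_const (Finset.subset_univ ω₀) (S := S) B]
  exact Per.CX_mono (fun ω₁ _ h1 => h ω₁ h1)

theorem Pr_sum (E : Finset Fc) (A : Finset Fc → Prop) :
    Pr E A = (∑ w ∈ E.powerset, Per.I (A w)) / 2 ^ E.card := by
  rw [Pr_eq]
  congr 1
  rw [Finset.card_filter]
  push_cast
  rfl

/-- **upper bound by a probability** -/
theorem CX_le_Pr {U' : Finset Fc} {S ω₀ : Finset c.al} (hU : U' ⊆ box c.m c.n)
    (hS : ∀ x : c.V, em x ∈ U' → Sum.inl x ∉ S) {F : Finset c.al → ℝ} {X : (Fc → Bool) → Prop}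
    {B : ℝ} (hF : ∀ ω' : Finset c.al, ω' ∩ S = ω₀ ∩ S → F ω' ≤ Per.I (X (Om ω')))
    (hX : ∀ ω₁ : Finset c.al, ω₁ ∩ S = ω₀ ∩ S → Pr U' (fun w => X (mixc U' w (Om ω₁))) ≤ B) :
    CX Finset.univ S ω₀ F ≤ B := by
  apply CX_le_av hU hS
  intro ω₁ h1
  refine le_trans ?_ (hX ω₁ h1)
  rw [Pr_sum]
  apply div_le_div_of_nonneg_right _ (by positivity)
  apply Finset.sum_le_sum
  intro w hw
  rw [Finset.mem_powerset] at hw
  rw [← Om_rep hU hw]
  exact hF _ ((rep_agree hw hS).trans h1)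

/-- **lower bound by a probability** -/
theorem CX_ge_Pr {U' : Finset Fc} {S ω₀ : Finset c.al} (hU : U' ⊆ box c.m c.n)
    (hS : ∀ x : c.V, em x ∈ U' → Sum.inl x ∉ S) {F : Finset c.al → ℝ} {X : (Fc → Bool) → Prop}
    {B : ℝ} (hF : ∀ ω' : Finset c.al, ω' ∩ S = ω₀ ∩ S → Per.I (X (Om ω')) ≤ F ω')
    (hX : ∀ ω₁ : Finset c.al, ω₁ ∩ S = ω₀ ∩ S → B ≤ Pr U' (fun w => X (mixc U' w (Om ω₁)))) :
    B ≤ CX Finset.univ S ω₀ F := by
  apply CX_ge_av hU hS
  intro ω₁ h1
  refine le_trans (hX ω₁ h1) ?_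
  rw [Pr_sum]
  apply div_le_div_of_nonneg_right _ (by positivity)
  apply Finset.sum_le_sum
  intro w hw
  rw [Finset.mem_powerset] at hw
  rw [← Om_rep hU hw]
  exact hF _ ((rep_agree hw hS).trans h1)

end Pool.Agent.H75.Lv
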