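import Pool.Agent.H75.Lv.Site3
import Pool.Agent.H93.SM.Iface2
import Pool.Agent.H58.TA.RetP
import Pool.Agent.H89.Per.Last

set_option autoImplicit false

/-!
# MP_2e6055, module INST (helper75), 7: the quantitative fields, closed statements

For a site `v` and a scale `j ≥ 1`: `T` = first visit of `Bx v ρ_j`, `A` = first visit of the end box
`En j (sq j v)`, `T'` = first visit of `Bx v ρ_{j-1}`.
-/

namespace Pool.Agent.H75.Lv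

open Pool.Agent.H7.UC Pool.Agent.H74.Tri Pool.Agent.H75.Perc Pool.Agent.H93.SM Pool.Agent.H89.Per
open Pool.Agent.H75.Per (CX IsStop Meas agree_mono agree_iff)
open Pool.Agent.H75
open Classical

attribute [-instance] instDecidableEqSum

/-- asymptotic quantifier: geometric constants, threshold, ratio, localisation factor fixed, base unit
large -/
def Large (g : Gm) (s3 : ℝ) (l : ℕ) (L : ℤ) (Q : Cf → Prop) : Prop :=
  ∃ a0 : ℕ, ∀ c : Cf, c.Ok → c.g = g → c.s3 = s3 → c.l = l → c.L = L → a0 ≤ c.a → Q c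

variable {c : Cf}

/-- component of `v` in the unexplored part at the first visit of `S` -/
noncomputable def CD (S : Finset Fc) (v : Fc) (ω : Finset c.al) : Finset Fc :=
  comp (Pool.Agent.H74.Tri.un (b1 ω) (fi S ω)) v

/-- potential of `v` at the first visit of `S`, in units `ρ_j^{-1/4}` -/
noncomputable def GP (S : Finset Fc) (v : Fc) (j : ℕ) (ω : Finset c.al) : ℝ :=
  if hit S ω then (c.rho j : ℝ) ^ ((1 / 4) : ℝ) * gv (CD S v ω) (Om ω) v else 0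

/-- the end box of the scale `j` of `v` -/
noncomputable def EB (v : Fc) (j : ℕ) : Finset Fc := c.En j (c.sq j v)

/-- **os1** -/
def FOs1 : Prop := ∀ (g : Gm) (s3 : ℝ) (l : ℕ) (L : ℤ) (e : ℝ), 0 < e → Large g s3 l L fun c =>
  ∀ (v : Fc) (j : ℕ), c.use j v → ∀ ω : Finset c.al, hit (Bx v (c.rho j)) ω →
  CX (Finset.univ : Finset c.al) (Rg (Bx v (c.rho j)) ω) ω (fun ω' =>
    Per.I (mad v j 0 ω') * GP (c.En j (c.sq j v)) v j ω' +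
    Per.I (hit (Bx v (c.rho (j - 1))) ω' ∧ ¬ mad v j 0 ω') *
      ((l : ℝ) ^ ((1 / 4) : ℝ) * GP (Bx v (c.rho (j - 1))) v (j - 1) ω')) ≤
  GP (Bx v (c.rho j)) v j ω + e

/-- **os2** -/
def FOs2 : Prop := ∀ (g : Gm) (s3 : ℝ) (l : ℕ) (L : ℤ) (e : ℝ), 0 < e → Large g s3 l L fun c =>
  ∀ (v : Fc) (j : ℕ), c.use j v → ∀ ω : Finset c.al, mad v j 0 ω →
  CX (Finset.univ : Finset c.al) (Rg (c.En j (c.sq j v)) ω) ω (fun ω' =>
    Per.I (hit (Bx v (c.rho (j - 1))) ω') *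
      ((l : ℝ) ^ ((1 / 4) : ℝ) * GP (Bx v (c.rho (j - 1))) v (j - 1) ω')) ≤
  GP (c.En j (c.sq j v)) v j ω + e

/-- **f4** -/
def FF4 : Prop := ∃ C0 : ℝ, 0 < C0 ∧ ∀ (g : Gm) (s3 : ℝ) (l : ℕ) (L : ℤ) (e : ℝ), 0 < e →
  Large g s3 l L fun c => ∀ (v : Fc) (j : ℕ), c.use j v → ∀ ω : Finset c.al,
  hit (Bx v (c.rho j)) ω →
  CX (Finset.univ : Finset c.al) (Rg (Bx v (c.rho j)) ω) ω
    (fun ω' => Per.I (hit (Bx v (c.rho (j - 1))) ω')) ≤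
  C0 / (l : ℝ) ^ ((1 / 4) : ℝ) * (GP (Bx v (c.rho j)) v j ω + e)

/-- **al0**: the first visit of the top box, from the initial state -/
def FAl0 : Prop := ∃ C0 : ℝ, 0 < C0 ∧ ∀ (g : Gm) (s3 : ℝ) (l : ℕ) (L : ℤ),
  Large g s3 l L fun c => ∀ (v : c.V) (j : ℕ), c.use j (em v) → (dd v : ℤ) ≤ 20 * l * c.rho j →
  ∀ ω : Finset c.al, CX (Finset.univ : Finset c.al) ∅ ω
    (fun ω' => Per.I (hit (Bx (em v) (c.rho j)) ω')) ≤
  C0 * ((c.rho j : ℝ) / (dd v : ℝ)) ^ ((1 / 4) : ℝ)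

/-- **lr**: leave `Bx v (L ρ_j)` and come back to `Bx v ρ_{j-1}`; the bits of `H` are given too -/
def FLr : Prop := ∃ C k : ℝ, 0 < C ∧ 0 < k ∧ ∀ (g : Gm) (s3 : ℝ) (l : ℕ) (L : ℤ),
  Large g s3 l L fun c => ∀ (v : Fc) (j : ℕ), c.use j v → ∀ ω : Finset c.al,
  hit (Bx v (c.rho j)) ω → ∀ H ⊆ FF v j 0,
  CX (Finset.univ : Finset c.al) (Rg (Bx v (c.rho j)) ω ∪ H) ω (fun ω' =>
    Per.I (hit (Bx v (c.rho (j - 1))) ω' ∧
      ¬ Disjoint (Rg (Bx v (c.rho (j - 1))) ω' \ Rg (Bx v (c.rho j)) ω') (FF v j 0))) ≤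
  C * (L : ℝ) ^ (-k) / (l : ℝ) ^ ((1 / 4) : ℝ)

/-- **lrA**: leave `Bx v (L ρ_j)` and come back to the end box -/
def FLrA : Prop := ∃ C k : ℝ, 0 < C ∧ 0 < k ∧ ∀ (g : Gm) (s3 : ℝ) (l : ℕ) (L : ℤ),
  Large g s3 l L fun c => ∀ (v : Fc) (j : ℕ), c.use j v → ∀ ω : Finset c.al,
  hit (Bx v (c.rho j)) ω → ∀ H ⊆ FF v j 0,
  CX (Finset.univ : Finset c.al) (Rg (Bx v (c.rho j)) ω ∪ H) ω (fun ω' =>
    Per.I (hit (c.En j (c.sq j v)) ω' ∧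
      ¬ Disjoint (Rg (c.En j (c.sq j v)) ω' \ Rg (Bx v (c.rho j)) ω') (FF v j 0))) ≤
  C * (L : ℝ) ^ (-k)

/-- **touch**: from the attempt, reveal a new face of the annuli and come back to `Bx v ρ_{j-1}` -/
def FTouch : Prop := ∃ C k : ℝ, 0 < C ∧ 0 < k ∧ ∀ (g : Gm) (s3 : ℝ) (l : ℕ) (L : ℤ),
  Large g s3 l L fun c => ∀ (v : Fc) (j : ℕ), c.use j v → ∀ ω : Finset c.al,
  mad v j 0 ω → ∀ H ⊆ FF v j 0,
  CX (Finset.univ : Finset c.al) (Rg (c.En j (c.sq j v)) ω ∪ (FR v j 0 ω ∪ H)) ω (fun ω' =>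
    Per.I (hit (Bx v (c.rho (j - 1))) ω' ∧
      ¬ Disjoint (Rg (Bx v (c.rho (j - 1))) ω') (FR v j 0 ω'))) ≤
  C * (g.N : ℝ) ^ ((1 / 4 : ℝ) - k) / (l : ℝ) ^ ((1 / 4) : ℝ)

/-- **suc**: the eight circuits -/
def FSuc : Prop := ∃ c0 : ℝ, 0 < c0 ∧ ∀ (g : Gm) (s3 : ℝ) (l : ℕ) (L : ℤ),
  Large g s3 l L fun c => ∀ (v : Fc) (j : ℕ), c.use j v → ∀ ω : Finset c.al, mad v j 0 ω →
  c0 ≤ CX (Finset.univ : Finset c.al) (Rg (c.En j (c.sq j v)) ω) ω (fun ω' => Per.I (suc v j 0 ω'))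

/-- **cen**: the attempts are made in central positions -/
def FCen : Prop := ∃ k : ℝ, 0 < k ∧ ∀ (g : Gm) (s3 : ℝ) (l : ℕ) (L : ℤ), 0 < s3 →
  Large g s3 l L fun c => ∀ (v : Fc) (j : ℕ), c.use j v → ∀ ω : Finset c.al, mad v j 0 ω →
  k * s3 * (g.N : ℝ) ^ ((1 / 4) : ℝ) ≤ GP (c.En j (c.sq j v)) v j ω

/-- **f5**: from a central state the attempt is made with positive probability -/
def FF5 : Prop := ∃ s3 : ℝ, 0 < s3 ∧ ∃ N0 : ℤ, ∀ N : ℤ, N0 ≤ N → ∃ h0 : ℤ, ∀ h : ℤ, h0 ≤ h →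
  8 ∣ h → ∃ g : Gm, g.N = N ∧ g.h = h ∧ g.Ok ∧ ∀ s0 : ℝ, 0 < s0 → ∃ pK : ℝ, 0 < pK ∧
  ∀ (l : ℕ) (L : ℤ), Large g s3 l L fun c => ∀ (v : Fc) (j : ℕ), c.use j v →
  ∀ ω : Finset c.al, hit (Bx v (c.rho j)) ω → s0 ≤ GP (Bx v (c.rho j)) v j ω →
  pK ≤ CX (Finset.univ : Finset c.al) (Rg (Bx v (c.rho j)) ω) ω (fun ω' => Per.I (mad v j 0 ω'))

end Pool.Agent.H75.Lv
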