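import Pool.Agent.H75.Lv.Lev

set_option autoImplicit false

/-!
# MP_2e6055, module INST (helper75), 2: closed statements
Inputs of the writers: the Props `Peel, PeelK, TipU, Int1, Int2, NE, Init, Irr, Det` of H74/Tri/Iface as
hypotheses of the theorems.
-/

namespace Pool.Agent.H75.Lv

open Pool.Agent.H7.UC Pool.Agent.H74.Tri Pool.Agent.H75.Perc Pool.Agent.H93.SM

/-- CONG: only the colours of `U` and of the faces next to `U` matter while the interface is in `U`. -/
def CONG : Prop := ∀ (U : Finset Fc) (ω ω' : Fc → Bool) (p : Pos), IsTip U ω p →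
  (∀ f, f ∈ U ∨ tch ↑U f → ω f = ω' f) → ∀ i, Ins U ω p i → Ins U ω' p i ∧ orb ω' p i = orb ω p i

/-- EXPL: the explored faces are the faces asked before. -/
def EXPL : Prop := ∀ (U : Finset Fc) (ω : Fc → Bool) (p : Pos), IsTip U ω p → ∀ i, Ins U ω p i →
  ∀ f, f ∈ expl U ω p i ↔ ∃ i' < i, Ask U ω p i' f

/-- STI: the components of the unexplored part are states. -/
def STI : Prop := ∀ (U : Finset Fc) (ω : Fc → Bool) (p : Pos), St U ω → IsTip U ω p → ∀ i,
  Ins U ω p i → ∀ z ∈ U, z ∉ Rev ω p i → St (unx U ω p i z) ω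

/-- RST (restart): at the index `t0` the new face ahead is in the component `unx W ω p t0 v` of `v`.
(1) the component is a state with tip `orb ω p t0`; (2) what is asked in it is asked in `W`; (3) if a
face of the component is asked in `W` at the index `t0 + j`, then everything asked in between is asked
in the component; (4) the components of later times agree. -/
def RST : Prop := ∀ (W : Finset Fc) (ω : Fc → Bool) (p : Pos), St W ω → IsTip W ω p → ∀ t0 f0 v,
  Ask W ω p t0 f0 → v ∈ W → v ∉ Rev ω p t0 → f0 ∈ unx W ω p t0 v →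
  St (unx W ω p t0 v) ω ∧ IsTip (unx W ω p t0 v) ω (orb ω p t0) ∧
  (∀ i f, Ask (unx W ω p t0 v) ω (orb ω p t0) i f → Ask W ω p (t0 + i) f) ∧
  (∀ i f j g, Ask W ω p (t0 + i) f → i ≤ j → Ask W ω p (t0 + j) g → g ∈ unx W ω p t0 v →
    Ask (unx W ω p t0 v) ω (orb ω p t0) i f) ∧
  (∀ i z, Ins (unx W ω p t0 v) ω (orb ω p t0) i → z ∈ unx W ω p t0 v → z ∉ Rev ω p (t0 + i) →
    unx W ω p (t0 + i) z = unx (unx W ω p t0 v) ω (orb ω p t0) i z)

/-- EVC: from the interface of `U` to the `z`-chain `EV` of helper93. -/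
def EVC : Prop := ∀ (U : Finset Fc) (col : Fc → Bool) (z : Fc) (p : Pos), St U col → z ∈ U →
  IsTip U col p → ∀ (stop : Finset Fc → (Fc → Bool) → Prop) (Gf : Finset Fc → (Fc → Bool) → ℝ),
  (∀ U' c, 0 ≤ Gf U' c) →
  (∀ U' c c', (∀ f, f ∉ U' → c f = c' f) → ((stop U' c ↔ stop U' c') ∧ Gf U' c = Gf U' c')) →
  ∀ X : Finset Fc → ℝ, (∀ w ⊆ U, X w ≤ 0 ∨ ∃ i f, Ask U (mixc U w col) p i f ∧
    z ∉ Rev (mixc U w col) p i ∧ f ∈ unx U (mixc U w col) p i z ∧
    stop (unx U (mixc U w col) p i z) (mixc U w col) ∧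
    (∀ i' < i, ∀ f', Ask U (mixc U w col) p i' f' → f' ∈ unx U (mixc U w col) p i' z →
      ¬ stop (unx U (mixc U w col) p i' z) (mixc U w col)) ∧
    X w ≤ Gf (unx U (mixc U w col) p i z) (mixc U w col)) →
  (∑ w ∈ U.powerset, X w) / 2 ^ U.card ≤
    EV z (fun U' c _ => stop U' c) (fun U' c _ => Gf U' c) U.card U col []

/-- ADMC: admissibility depends only on the colours next to `U`. -/
def ADMC : Prop := ∀ (g : Gm) (s3 : ℝ) (u : ℕ) (U : Finset Fc) (z0 : Fc) (c c' : Fc → Bool),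
  (∀ f, tch ↑U f → f ∉ U → c f = c' f) → (Adm g s3 u U c z0 ↔ Adm g s3 u U c' z0)

end Pool.Agent.H75.Lv
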