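import Pool.Agent.H75.Lv.Iface
import Pool.Agent.H74.Tri.Main
import Pool.Agent.H75.Per.Main

set_option autoImplicit false

/-!
# MP_2e6055, module INST (helper75), 3: labels, scales, stopping regions of the main exploration
-/

namespace Pool.Agent.H75.Lv

open Pool.Agent.H7.UC Pool.Agent.H74.Tri Pool.Agent.H75.Perc Pool.Agent.H89.Per
open Pool.Agent.H75.Per (CX IsStop Meas agree_mono agree_iff)
open Classical

attribute [-instance] instDecidableEqSum

/-- the parameters: geometric constants, threshold of (b'), unit and ratio of the scales, localisation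
factor, number of scales, size of the box -/
structure Cf where
  g : Gm
  s3 : ℝ
  a : ℕ
  l : ℕ
  L : ℤ
  J : ℕ
  m : ℕ
  n : ℕ

/-- the conditions on the parameters -/
structure Cf.Ok (c : Cf) : Prop where
  g : c.g.Ok
  a : 100 ≤ c.a
  L : 4 ≤ c.L
  l : 64 * c.L * c.g.N * c.g.h ≤ c.l
  m : 1 ≤ c.m
  n : 1 ≤ c.n

/-- unit of the scale `j` -/
def Cf.un (c : Cf) (j : ℕ) : ℕ := c.a * c.l ^ j

/-- half side of the squares of the scale `j` -/
def Cf.hs (c : Cf) (j : ℕ) : ℤ := c.g.h * c.un j / 8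

/-- centre of the interval of length `2 q` that contains `x` -/
def gc (q x : ℤ) : ℤ := 2 * q * (x / (2 * q)) + q

/-- centre of the square of `v` at the scale `j` -/
def Cf.sq (c : Cf) (j : ℕ) (v : Fc) : Fc := (gc (c.hs j) v.1, gc (c.hs j) v.2)

/-- the radius `ρ_j` -/
def Cf.rho (c : Cf) (j : ℕ) : ℤ := 2 * c.g.N * c.g.h * c.un j

/-- the scale `j ≥ 1` is used for `v` -/
def Cf.use (c : Cf) (j : ℕ) (v : Fc) : Prop :=
  1 ≤ j ∧ j ≤ c.J ∧ Bx (c.sq j v) (9 * c.rho j) ⊆ box c.m c.n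

/-- sites -/
abbrev Cf.V (c : Cf) : Type := Fin c.m × Fin c.n

/-- the labels `(j, z0)` of the attempts -/
def Cf.Lab (c : Cf) : Type :=
  {κ : Fin (c.J + 1) × c.V // c.sq κ.1.val (em κ.2) = em κ.2 ∧ c.use κ.1.val (em κ.2)}

noncomputable instance (c : Cf) : Fintype c.Lab := by
  classical exact Subtype.fintype _

/-- scale of a label -/
def Cf.sc (c : Cf) (κ : c.Lab) : ℕ := κ.1.1.val
/-- centre of a label -/
def Cf.ct (c : Cf) (κ : c.Lab) : Fc := em κ.1.2

/-- end box of scale `j` around `z0` -/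
noncomputable def Cf.En (c : Cf) (j : ℕ) (z0 : Fc) : Finset Fc := Bx z0 (c.g.h * c.un j)
/-- centres of the annuli of scale `j` -/
def Cf.pc (c : Cf) (d : Fin 8) (j : ℕ) (z0 : Fc) : Fc := c.g.ce d (c.un j) z0

/-- the eight circuits of the attempt `(j, z0)` -/
def Cf.AN (c : Cf) (j : ℕ) (z0 : Fc) (Ω : Fc → Bool) : Prop := ∀ d, ANN (c.pc d j z0) (c.un j) Ω

/-- the region of the eight annuli -/
def Cf.aS (c : Cf) (j : ℕ) (z0 : Fc) : Set Fc := {f | ∃ d, f ∈ annS (c.pc d j z0) (c.un j)}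

/-- the attempt `(j, z0)` is launched at time `t` -/
def Cf.Launch (c : Cf) (ω : c.V → Bool) (t : ℕ) (j : ℕ) (z0 : Fc) : Prop :=
  ph (orb (ext c.m c.n ω) p0 t) ∈ c.En j z0 ∧
  (∀ f ∈ c.En j z0, f ∉ Rev (ext c.m c.n ω) p0 t) ∧
  Adm c.g c.s3 (c.un j) (comp (Pool.Agent.H74.Tri.un ω t) z0) (ext c.m c.n ω) z0

/-- what the attempts of helper89's system must be -/
structure Cf.Spec (c : Cf) (T : Att c.V c.Lab (mainE c.m c.n)) : Prop where
  tr : ∀ ω t h κ, (mainE c.m c.n).hist ω t = some h →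
    (κ ∈ T.tr h ↔ c.Launch ω t (c.sc κ) (c.ct κ))
  nd : ∀ h, (T.tr h).Nodup
  Q : ∀ κ x, x ∈ T.Q κ ↔ c.sq (c.sc κ) (em x) = c.ct κ
  g : ∀ κ ω, T.g κ ω ↔ c.AN (c.sc κ) (c.ct κ) (ext c.m c.n ω)

/-- the bits: sites and private bits -/
abbrev Cf.al (c : Cf) : Type := c.V ⊕ (c.Lab × c.V)

variable {c : Cf}

/-- the configuration of the box -/
noncomputable def b1 (ω : Finset c.al) : c.V → Bool := by
  classical exact fun x => decide (Sum.inl x ∈ ω)

/-- the colouring -/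
noncomputable def Om (ω : Finset c.al) : Fc → Bool := ext c.m c.n (b1 ω)

/-- asked at the index `t` -/
def asks (ω : Finset c.al) (t : ℕ) (f : Fc) : Prop := Ask (box c.m c.n) (Om ω) p0 t f

/-- a face of `S` is asked at some time -/
def hit (S : Finset Fc) (ω : Finset c.al) : Prop := ∃ t, ∃ f ∈ S, asks ω t f

/-- the first index at which a face of `S` is asked (or the exit) -/
noncomputable def fi (S : Finset Fc) (ω : Finset c.al) : ℕ :=
  sInf {t | (∃ f ∈ S, asks ω t f) ∨ ¬ Ins (box c.m c.n) (Om ω) p0 t}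

/-- the explored sites at the index `t` -/
noncomputable def XX (ω : Finset c.al) (t : ℕ) : Finset c.V := by
  classical exact Finset.univ.filter (fun x => em x ∈ Rev (Om ω) p0 t)

/-- the explored bits at the first visit of `S` -/
noncomputable def Rg (S : Finset Fc) (ω : Finset c.al) : Finset c.al := by
  classical exact (XX ω (fi S ω)).image Sum.inl

theorem mem_XX {ω : Finset c.al} {t : ℕ} {x : c.V} : x ∈ XX ω t ↔ em x ∈ Rev (Om ω) p0 t := by
  classical
  unfold XX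
  rw [Finset.mem_filter]
  exact ⟨fun h => h.2, fun h => ⟨Finset.mem_univ _, h⟩⟩

theorem mem_Rg {S : Finset Fc} {ω : Finset c.al} {x : c.V} :
    Sum.inl x ∈ Rg S ω ↔ em x ∈ Rev (Om ω) p0 (fi S ω) := by
  classical
  unfold Rg
  rw [Finset.mem_image]
  constructor
  · rintro ⟨y, hy, h⟩
    rw [Sum.inl.inj h] at hy
    exact mem_XX.1 hy
  · intro h
    exact ⟨x, mem_XX.2 h, rfl⟩

theorem not_mem_Rg {S : Finset Fc} {ω : Finset c.al} {x : c.Lab × c.V} : Sum.inr x ∉ Rg S ω := by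
  classical
  unfold Rg
  rw [Finset.mem_image]
  rintro ⟨y, _, h⟩
  cases h

theorem Om_em (ω : Finset c.al) (x : c.V) : Om ω (em x) = b1 ω x := ext_em _ _

theorem Om_out (ω : Finset c.al) {f : Fc} (h : f ∉ box c.m c.n) : Om ω f = decide (f.1 < 0) :=
  ext_out _ h

theorem b1_iff (ω : Finset c.al) (x : c.V) : b1 ω x = true ↔ Sum.inl x ∈ ω := by
  classical
  unfold b1
  rw [decide_eq_true_iff]

/-! ### The events of one site `v` with top scale `j0` -/

/-- the interface comes to `Bx v ρ_{j0-k}` -/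
def alv (v : Fc) (j0 k : ℕ) (ω : Finset c.al) : Prop := hit (Bx v (c.rho (j0 - k))) ω

/-- the attempt of the scale `j0 - k` is made -/
def mad (v : Fc) (j0 k : ℕ) (ω : Finset c.al) : Prop := 1 ≤ j0 - k ∧
  hit (c.En (j0 - k) (c.sq (j0 - k) v)) ω ∧
  c.Launch (b1 ω) (fi (c.En (j0 - k) (c.sq (j0 - k) v)) ω) (j0 - k) (c.sq (j0 - k) v)

/-- it succeeds -/
def suc (v : Fc) (j0 k : ℕ) (ω : Finset c.al) : Prop := ∃ κ : c.Lab, c.sc κ = j0 - k ∧
  c.ct κ = c.sq (j0 - k) v ∧ c.AN (j0 - k) (c.sq (j0 - k) v)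
    (ext c.m c.n (mix (XX ω (fi (c.En (j0 - k) (c.sq (j0 - k) v)) ω)) (b1 ω)
      (fun x => decide (Sum.inr (κ, x) ∈ ω))))

/-- the cost recursion of one site, for events `al` (alive), `ma` (made), `su` (success) -/
noncomputable def JF (al ma su : ℕ → Prop) (ch : ℕ → ℝ) : ℕ → ℕ → ℝ
  | 0, k => Per.I (al k)
  | n + 1, k => ch k * Per.I (ma k) + (1 - Per.I (ma k ∧ su k)) * JF al ma su ch n (k + 1)

/-- ASKM: asking in 74's main exploration = `Ask` in the box. -/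
def ASKM : Prop := ∀ (m n : ℕ), 1 ≤ m → 1 ≤ n → ∀ (ω : Fin m × Fin n → Bool) (t : ℕ)
  (x : Fin m × Fin n), (mainE m n).ask ω t = some x ↔ Ask (box m n) (ext m n ω) p0 t (em x)

/-- **JJ** (helper89): the part of the cost of ALG2 charged to `v`. -/
def JJ : Prop := ∀ (c : Cf) (T : Att c.V c.Lab (mainE c.m c.n)), c.Ok → c.Spec T → ∀ (N : ℕ)
  (chg : ℕ → ℝ), (∀ j, 0 ≤ chg j) → ∀ v : c.V,
  ((∀ j, ¬ c.use j (em v)) → T.J N (fun κ => chg (c.sc κ)) v ≤ 1) ∧
  (∀ j0, c.use j0 (em v) → (∀ j, c.use j (em v) → j ≤ j0) →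
    T.J N (fun κ => chg (c.sc κ)) v ≤ CX (Finset.univ : Finset c.al) ∅ ∅
      (fun ω => JF (fun k => alv (em v) j0 k ω) (fun k => mad (em v) j0 k ω)
        (fun k => suc (em v) j0 k ω) (fun k => chg (j0 - k)) j0 0))

/-! ### Two configurations which agree on what is revealed -/

/-- the colourings agree on the faces revealed by the first one before the index `t` -/
def Agr (ω ω' : Fc → Bool) (t : ℕ) : Prop := ∀ f ∈ Rev ω p0 t, ω' f = ω f

theorem Agr.mono {ω ω' : Fc → Bool} {t s : ℕ} (h : Agr ω ω' t) (hs : s ≤ t) : Agr ω ω' s :=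
  fun f hf => h f (Rev.mono hs hf)

theorem Agr.orb {ω ω' : Fc → Bool} {t : ℕ} (h : Agr ω ω' t) : orb ω' p0 t = orb ω p0 t := by
  induction t with
  | zero => rfl
  | succ t ih =>
    rw [orb_succ, orb_succ, ih (h.mono (Nat.le_succ t))]
    unfold stp
    rw [h _ (Rev_succ_iff.2 (Or.inr rfl))]

theorem Agr.Rev {ω ω' : Fc → Bool} {t : ℕ} (h : Agr ω ω' t) : Rev ω' p0 t = Rev ω p0 t := by
  ext f
  constructor
  · rintro ⟨i, hi, hf⟩
    rw [(h.mono hi).orb] at hf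
    exact ⟨i, hi, hf⟩
  · rintro ⟨i, hi, hf⟩
    rw [← (h.mono hi).orb] at hf
    exact ⟨i, hi, hf⟩

theorem Agr.Ins {ω ω' : Fc → Bool} {t : ℕ} (h : Agr ω ω' t) (U : Finset Fc) :
    Ins U ω' p0 t ↔ Ins U ω p0 t := by
  constructor
  · intro h1 i h2 h3
    rw [← (h.mono h3).orb]
    exact h1 i h2 h3
  · intro h1 i h2 h3
    rw [(h.mono h3).orb]
    exact h1 i h2 h3

theorem Agr.Ask {ω ω' : Fc → Bool} {t : ℕ} (h : Agr ω ω' t) (U : Finset Fc) (f : Fc) :
    Ask U ω' p0 t f ↔ Ask U ω p0 t f := by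
  unfold Lv.Ask
  rw [h.Ins, h.orb, h.Rev]

/-- agreement on a region containing what is revealed -/
theorem agr_of {ω ω' : Finset c.al} {t : ℕ} {R : Finset c.al}
    (hR : ∀ x : c.V, em x ∈ Rev (Om ω) p0 t → Sum.inl x ∈ R) (h : ω' ∩ R = ω ∩ R) :
    Agr (Om ω) (Om ω') t := by
  intro f hf
  by_cases hb : f ∈ box c.m c.n
  · obtain ⟨x, rfl⟩ := exists_em hb
    rw [Om_em, Om_em]
    have h1 := agree_iff.1 h (Sum.inl x) (hR x hf)
    rw [← b1_iff, ← b1_iff] at h1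
    cases h2 : b1 ω x <;> cases h3 : b1 ω' x <;> simp_all
  · rw [Om_out _ hb, Om_out _ hb]

theorem agr_Rg {S : Finset Fc} {ω ω' : Finset c.al} (h : ω' ∩ Rg S ω = ω ∩ Rg S ω) :
    Agr (Om ω) (Om ω') (fi S ω) :=
  agr_of (fun _ hx => mem_Rg.2 hx) h

end Pool.Agent.H75.Lv
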