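import Pool.Agent.H75.Lv.Model

set_option autoImplicit false

/-!
# MP_2e6055, module INST (helper75), 4: the system of one site
-/

namespace Pool.Agent.H75.Lv

open Pool.Agent.H7.UC Pool.Agent.H74.Tri Pool.Agent.H75.Perc Pool.Agent.H89.Per
open Pool.Agent.H75.Per (CX IsStop Meas agree_mono agree_iff)
open Classical

attribute [-instance] instDecidableEqSum

variable {c : Cf}

/-! ### Numbers -/

set_option linter.unusedSectionVars false

namespace Cf.Ok

variable (h : c.Ok)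
include h

theorem un_pos (j : ℕ) : 100 ≤ (c.un j : ℤ) := by
  have h1 := h.a
  have h2 : 1 ≤ c.l := by
    have h3 := h.l
    have h4 := h.L
    have h5 := h.g.N8
    have h6 := h.g.h64
    have h7 : (0 : ℤ) < 64 * c.L * c.g.N * c.g.h := by positivity
    omega
  have h3 : 1 ≤ c.l ^ j := Nat.one_le_pow _ _ h2
  unfold Cf.un
  have : 100 * 1 ≤ c.a * c.l ^ j := Nat.mul_le_mul h1 h3
  exact_mod_cast this

theorem un_succ (j : ℕ) : (c.un (j + 1) : ℤ) = c.l * c.un j := by
  unfold Cf.un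
  push_cast
  ring

theorem hs8 (j : ℕ) : 8 * c.hs j = c.g.h * c.un j := by
  obtain ⟨k, hk⟩ := h.g.h8
  unfold Cf.hs
  rw [hk, mul_assoc, Int.mul_ediv_cancel_left _ (by norm_num)]

theorem hs_pos (j : ℕ) : 0 < c.hs j := by
  have h1 := h.hs8 j
  have h2 := h.un_pos j
  have h3 := h.g.h64
  nlinarith

/-- `64 L N h u_j ≤ u_{j+1}` -/
theorem un_step (j : ℕ) : 64 * c.L * c.g.N * c.g.h * c.un j ≤ c.un (j + 1) := by
  rw [h.un_succ j]
  have h1 := h.l
  have h2 := h.un_pos j
  nlinarith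

theorem Lrho_step (j : ℕ) : 32 * (c.L * c.rho j) ≤ c.un (j + 1) := by
  have := h.un_step j
  unfold Cf.rho
  calc 32 * (c.L * (2 * c.g.N * c.g.h * c.un j)) = 64 * c.L * c.g.N * c.g.h * c.un j := by ring
    _ ≤ _ := this

theorem rho_pos (j : ℕ) : 0 < c.rho j := by
  have h1 := h.un_pos j
  have h2 := h.g.N8
  have h3 := h.g.h64
  unfold Cf.rho
  positivity

theorem rho_le_L (j : ℕ) : 4 * c.rho j ≤ c.L * c.rho j :=
  mul_le_mul_of_nonneg_right h.L (h.rho_pos j).le

/-- `ρ_j = 2 N h u_j` and `h u_j` -/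
theorem rho_eq (j : ℕ) : c.rho j = 2 * c.g.N * (c.g.h * c.un j) := by
  unfold Cf.rho; ring

theorem hu_pos (j : ℕ) : 6400 ≤ c.g.h * c.un j := by
  have h1 := h.un_pos j
  have h2 := h.g.h64
  nlinarith

theorem hu_le_rho (j : ℕ) : 128 * (c.g.h * c.un j) ≤ c.rho j := by
  rw [h.rho_eq]
  have h1 := h.hu_pos j
  have h2 := h.g.N8
  nlinarith

theorem u_le_hu (j : ℕ) : 64 * (c.un j : ℤ) ≤ c.g.h * c.un j := by
  have h1 := h.un_pos j
  have h2 := h.g.h64
  nlinarith

theorem rho_mono {i j : ℕ} (hij : i ≤ j) : c.rho i ≤ c.rho j := by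
  induction j with
  | zero =>
    have : i = 0 := by omega
    subst this; exact le_rfl
  | succ j ih =>
    rcases Nat.lt_or_ge i (j + 1) with h1 | h1
    · have h2 := ih (by omega)
      have h3 := h.Lrho_step j
      have h4 := h.rho_le_L j
      have h5 := h.hu_le_rho (j + 1)
      have h6 := h.u_le_hu (j + 1)
      have h7 := h.rho_pos j
      have h8 := h.un_pos (j + 1)
      linarith
    · have : i = j + 1 := by omega
      subst this; exact le_rfl

end Cf.Ok

theorem gc_near {q x : ℤ} (hq : 0 < q) : |x - gc q x| ≤ q := by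
  unfold gc
  have h1 := Int.mul_ediv_add_emod x (2 * q)
  have h2 := Int.emod_nonneg x (show 2 * q ≠ 0 by omega)
  have h3 := Int.emod_lt_of_pos x (show 0 < 2 * q by omega)
  rw [abs_le]
  constructor <;> linarith

theorem gc_gc {q x : ℤ} (hq : 0 < q) : gc q (gc q x) = gc q x := by
  unfold gc
  have e : (2 * q * (x / (2 * q)) + q) / (2 * q) = x / (2 * q) := by
    rw [show 2 * q * (x / (2 * q)) + q = q + 2 * q * (x / (2 * q)) by ring,
      Int.add_mul_ediv_left _ _ (show 2 * q ≠ 0 by omega),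
      Int.ediv_eq_zero_of_lt hq.le (by omega), zero_add]
  rw [e]

theorem sq_near (h : c.Ok) (j : ℕ) (v : Fc) : v ∈ Bx (c.sq j v) (c.hs j) :=
  mem_Bx.2 ⟨gc_near (h.hs_pos j), gc_near (h.hs_pos j)⟩

theorem sq_sq (h : c.Ok) (j : ℕ) (v : Fc) : c.sq j (c.sq j v) = c.sq j v :=
  Prod.ext (gc_gc (h.hs_pos j)) (gc_gc (h.hs_pos j))

/-- the annuli of the attempt: distances from the centre of the square -/
theorem ann_far (h : c.Ok) {j : ℕ} {z0 f : Fc} (hf : f ∈ c.aS j z0) :
    (|f.1 - z0.1| ≤ c.g.N * c.g.h * c.un j - c.un j ∧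
      |f.2 - z0.2| ≤ c.g.N * c.g.h * c.un j - c.un j) ∧
    (c.g.N * c.g.h * c.un j < 4 * |f.1 - z0.1| ∨ c.g.N * c.g.h * c.un j < 4 * |f.2 - z0.2|) := by
  obtain ⟨d, hf⟩ := hf
  have hu := h.un_pos j
  set u : ℤ := (c.un j : ℤ) with hu'
  obtain ⟨⟨⟨h1, h2⟩, h3, h4⟩, _⟩ := hf
  unfold Cf.pc Gm.ce at h1 h2 h3 h4
  simp only [← hu'] at h1 h2 h3 h4
  set A := (c.g.dv d).1 with hA
  set B := (c.g.dv d).2 with hB
  set M := max |A| |B| with hM
  have hM' : M = max |c.g.px| |c.g.py| := by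
    rw [hM, hA, hB]
    rcases dv_abs c.g d with ⟨e1, e2⟩ | ⟨e1, e2⟩
    · rw [e1, e2]
    · rw [e1, e2, max_comm]
  have hx : |A| ≤ M := le_max_left _ _
  have hy : |B| ≤ M := le_max_right _ _
  have hin := h.g.inn
  have hout := h.g.out
  rw [← hM'] at hin hout
  have hMu : (M + 4) * u ≤ c.g.N * c.g.h * u := mul_le_mul_of_nonneg_right hin (by omega)
  have h4q : c.g.N * c.g.h - 3 ≤ 4 * (c.g.N * c.g.h / 4) := by omega
  have hMu2 : (c.g.N * c.g.h - 3 + 16) * u ≤ 4 * M * u :=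
    mul_le_mul_of_nonneg_right (by linarith) (by omega)
  have ax : |A * u| = |A| * u := by rw [abs_mul, abs_of_nonneg (show 0 ≤ u by omega)]
  have ay : |B * u| = |B| * u := by rw [abs_mul, abs_of_nonneg (show 0 ≤ u by omega)]
  have hxu : |A| * u ≤ M * u := mul_le_mul_of_nonneg_right hx (by omega)
  have hyu : |B| * u ≤ M * u := mul_le_mul_of_nonneg_right hy (by omega)
  have e1 : |f.1 - z0.1 - A * u| ≤ 3 * u := by rw [abs_le]; constructor <;> linarith
  have e2 : |f.2 - z0.2 - B * u| ≤ 3 * u := by rw [abs_le]; constructor <;> linarith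
  have t1 : |f.1 - z0.1| ≤ |f.1 - z0.1 - A * u| + |A * u| := by
    have := abs_add_le (f.1 - z0.1 - A * u) (A * u)
    simpa using this
  have t2 : |f.2 - z0.2| ≤ |f.2 - z0.2 - B * u| + |B * u| := by
    have := abs_add_le (f.2 - z0.2 - B * u) (B * u)
    simpa using this
  have t3 : |A * u| ≤ |f.1 - z0.1 - A * u| + |f.1 - z0.1| := by
    have := abs_sub (f.1 - z0.1) (f.1 - z0.1 - A * u)
    have e : f.1 - z0.1 - (f.1 - z0.1 - A * u) = A * u := by ring
    rw [e] at this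
    linarith
  have t4 : |B * u| ≤ |f.2 - z0.2 - B * u| + |f.2 - z0.2| := by
    have := abs_sub (f.2 - z0.2) (f.2 - z0.2 - B * u)
    have e : f.2 - z0.2 - (f.2 - z0.2 - B * u) = B * u := by ring
    rw [e] at this
    linarith
  refine ⟨⟨by nlinarith, by nlinarith⟩, ?_⟩
  rcases le_total |A| |B| with hle | hle
  · right
    have : M = |B| := max_eq_right hle
    rw [this] at hMu2
    nlinarith
  · left
    have : M = |A| := max_eq_left hle
    rw [this] at hMu2
    nlinarith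

end Pool.Agent.H75.Lv
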