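import Pool.Agent.H75.Lv.Site

set_option autoImplicit false

/-!
# MP_2e6055, module INST (helper75), 5: first visits, stopping regions
-/

namespace Pool.Agent.H75.Lv

open Pool.Agent.H7.UC Pool.Agent.H74.Tri Pool.Agent.H75.Perc Pool.Agent.H89.Per
open Pool.Agent.H75.Per (CX IsStop Meas agree_mono agree_iff)
open Classical

attribute [-instance] instDecidableEqSum

variable {c : Cf}

theorem Ins.mono {U : Finset Fc} {ω : Fc → Bool} {p : Pos} {i j : ℕ} (h : Ins U ω p j)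
    (hij : i ≤ j) : Ins U ω p i := fun k h1 h2 => h k h1 (h2.trans hij)

/-- the interface leaves the box -/
theorem exists_out (hm : 1 ≤ c.m) (hn : 1 ≤ c.n) (ω : Finset c.al) :
    ∃ t, ¬ Ins (box c.m c.n) (Om ω) p0 t := by
  obtain ⟨n, h1, h2, h3⟩ := Pool.Agent.H98.Tri.int1 (box c.m c.n) (Om ω) p0
    (Pool.Agent.H11.Tri.init c.m c.n _ hm hn (ext_bc _)).2
  refine ⟨n + 1, fun h => ?_⟩
  have h4 := h (n + 1) (by omega) le_rfl
  rw [inE_pe] at h4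
  rcases h4 with h4 | h4
  · exact h3.2.1 h4
  · exact h3.2.2.1 h4

variable {S S' : Finset Fc} {ω ω' : Finset c.al}

theorem fi_spec (hc : c.Ok) (S : Finset Fc) (ω : Finset c.al) :
    (∃ f ∈ S, asks ω (fi S ω) f) ∨ ¬ Ins (box c.m c.n) (Om ω) p0 (fi S ω) := by
  have h : {t | (∃ f ∈ S, asks ω t f) ∨ ¬ Ins (box c.m c.n) (Om ω) p0 t}.Nonempty := by
    obtain ⟨t, ht⟩ := exists_out hc.m hc.n ω
    exact ⟨t, Or.inr ht⟩
  exact Nat.sInf_mem h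

theorem fi_le {t : ℕ} (h : (∃ f ∈ S, asks ω t f) ∨ ¬ Ins (box c.m c.n) (Om ω) p0 t) :
    fi S ω ≤ t := Nat.sInf_le h

theorem fi_le_ask {t : ℕ} {f : Fc} (hf : f ∈ S) (h : asks ω t f) : fi S ω ≤ t :=
  fi_le (Or.inl ⟨f, hf, h⟩)

theorem hit_iff (hc : c.Ok) : hit S ω ↔ ∃ f ∈ S, asks ω (fi S ω) f := by
  constructor
  · rintro ⟨t, f, hf, h⟩
    rcases fi_spec hc S ω with h1 | h1
    · exact h1
    · exact absurd (h.1.mono (fi_le_ask hf h)) h1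
  · rintro ⟨f, hf, h⟩
    exact ⟨_, f, hf, h⟩

theorem before_fi {t : ℕ} (ht : t < fi S ω) : Ins (box c.m c.n) (Om ω) p0 t ∧
    ∀ f ∈ S, ¬ asks ω t f := by
  have h : ¬ ((∃ f ∈ S, asks ω t f) ∨ ¬ Ins (box c.m c.n) (Om ω) p0 t) :=
    fun h => absurd (fi_le h) (by omega)
  push Not at h
  exact ⟨h.2, h.1⟩

theorem fi_eq {t : ℕ} (h1 : ∃ f ∈ S, asks ω t f) (h2 : ∀ s < t, ∀ f ∈ S, ¬ asks ω s f) :
    fi S ω = t := by
  apply le_antisymm (fi_le (Or.inl h1))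
  by_contra h
  push Not at h
  obtain ⟨f, _, h3⟩ := h1
  have h4 : (∃ f ∈ S, asks ω (fi S ω) f) ∨ ¬ Ins (box c.m c.n) (Om ω) p0 (fi S ω) := by
    have hne : {t | (∃ f ∈ S, asks ω t f) ∨ ¬ Ins (box c.m c.n) (Om ω) p0 t}.Nonempty :=
      ⟨t, Or.inl ⟨f, by assumption, h3⟩⟩
    exact Nat.sInf_mem hne
  rcases h4 with ⟨g, hg, h4⟩ | h4
  · exact h2 _ h g hg h4
  · exact h4 (h3.1.mono h.le)

theorem hit_mono (h : S' ⊆ S) (h1 : hit S' ω) : hit S ω := by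
  obtain ⟨t, f, hf, h2⟩ := h1
  exact ⟨t, f, h hf, h2⟩

theorem fi_mono (hc : c.Ok) (h : S' ⊆ S) (ω : Finset c.al) : fi S ω ≤ fi S' ω := by
  rcases fi_spec hc S' ω with ⟨f, hf, h1⟩ | h1
  · exact fi_le (Or.inl ⟨f, h hf, h1⟩)
  · exact fi_le (Or.inr h1)

theorem XX_mono {s t : ℕ} (h : s ≤ t) (ω : Finset c.al) : XX ω s ⊆ XX ω t := by
  intro x hx
  rw [mem_XX] at hx ⊢
  exact Rev.mono h hx

theorem Rg_mono (hc : c.Ok) (h : S' ⊆ S) (ω : Finset c.al) : Rg S ω ⊆ Rg S' ω := by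
  unfold Rg
  exact Finset.image_subset_image (XX_mono (fi_mono hc h ω) ω)

/-- what is asked at a time before which the two configurations agree -/
theorem Agr.asks {t : ℕ} (h : Agr (Om ω) (Om ω') t) (f : Fc) : asks ω' t f ↔ asks ω t f :=
  h.Ask _ f

theorem Agr.symm' {t : ℕ} (h : Agr (Om ω) (Om ω') t) : Agr (Om ω') (Om ω) t := by
  intro f hf
  rw [h.Rev] at hf
  exact (h f hf).symm

theorem fi_agr (hc : c.Ok) (h : Agr (Om ω) (Om ω') (fi S ω)) : fi S ω' = fi S ω := by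
  apply le_antisymm
  · apply fi_le
    rw [h.Ins]
    rcases fi_spec hc S ω with ⟨f, hf, h1⟩ | h1
    · exact Or.inl ⟨f, hf, (h.asks f).2 h1⟩
    · exact Or.inr h1
  · by_contra hlt
    push Not at hlt
    have h' := h.mono hlt.le
    rcases fi_spec hc S ω' with ⟨f, hf, h1⟩ | h1
    · exact (before_fi hlt).2 f hf ((h'.asks f).1 h1)
    · rw [h'.Ins] at h1
      exact h1 (before_fi hlt).1

theorem XX_agr {t : ℕ} (h : Agr (Om ω) (Om ω') t) : XX ω' t = XX ω t := by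
  ext x
  rw [mem_XX, mem_XX, h.Rev]

/-- a function of what is seen at the first visit of `S` is measurable -/
theorem Meas_Rg {β : Sort*} {X : Finset c.al → β} (hc : c.Ok)
    (h : ∀ ω ω' : Finset c.al, Agr (Om ω) (Om ω') (fi S ω) → fi S ω' = fi S ω → X ω' = X ω) :
    Meas Finset.univ (Rg S) X :=
  fun ω _ ω' _ h1 => h ω ω' (agr_Rg h1) (fi_agr hc (agr_Rg h1))

theorem stop_Rg (hc : c.Ok) (S : Finset Fc) : IsStop (Finset.univ : Finset c.al) (Rg S) := by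
  constructor
  intro ω _ ω' _ h1
  have h2 := agr_Rg h1
  unfold Rg
  rw [fi_agr hc h2, XX_agr h2]

theorem meas_hit (hc : c.Ok) (S : Finset Fc) : Meas Finset.univ (Rg S) (hit (c := c) S) := by
  apply Meas_Rg hc
  intro ω ω' h1 h2
  rw [eq_iff_iff, hit_iff hc, hit_iff hc, h2]
  constructor
  · rintro ⟨f, hf, h3⟩; exact ⟨f, hf, (h1.asks f).1 h3⟩
  · rintro ⟨f, hf, h3⟩; exact ⟨f, hf, (h1.asks f).2 h3⟩

/-! ### The events are determined by the regions -/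

theorem un_agr {t : ℕ} (h : Agr (Om ω) (Om ω') t) :
    Pool.Agent.H74.Tri.un (b1 ω') t = Pool.Agent.H74.Tri.un (b1 ω) t := by
  ext f
  rw [mem_un, mem_un]
  show f ∈ box c.m c.n ∧ f ∉ Rev (Om ω') p0 t ↔ f ∈ box c.m c.n ∧ f ∉ Rev (Om ω) p0 t
  rw [h.Rev]

/-- off the unexplored faces the colourings agree -/
theorem Om_agr_off {t : ℕ} (h : Agr (Om ω) (Om ω') t) {f : Fc}
    (hf : f ∉ Pool.Agent.H74.Tri.un (b1 ω) t) : Om ω' f = Om ω f := by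
  by_cases hb : f ∈ box c.m c.n
  · apply h
    by_contra h1
    exact hf (mem_un.2 ⟨hb, h1⟩)
  · rw [Om_out _ hb, Om_out _ hb]

theorem Launch_agr (hA : ADMC) {t : ℕ} (h : Agr (Om ω) (Om ω') t) (j : ℕ) (z0 : Fc) :
    c.Launch (b1 ω') t j z0 ↔ c.Launch (b1 ω) t j z0 := by
  have key : ∀ ω ω' : Finset c.al, Agr (Om ω) (Om ω') t →
      (c.Launch (b1 ω) t j z0 → c.Launch (b1 ω') t j z0) := by
    intro ω ω' h hL
    obtain ⟨h1, h2, h3⟩ := hL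
    refine ⟨?_, ?_, ?_⟩
    · show ph (orb (Om ω') p0 t) ∈ c.En j z0
      rw [h.orb]; exact h1
    · intro f hf
      show f ∉ Rev (Om ω') p0 t
      rw [h.Rev]; exact h2 f hf
    · rw [un_agr h]
      refine (hA _ _ _ _ _ _ _ ?_).1 h3
      intro f ht hf
      exact (Om_agr_off h (tch_comp hf ht)).symm
  exact ⟨key ω' ω h.symm', key ω ω' h⟩

theorem ANN_congr {p : Fc} {w : ℕ} {Ω Ω' : Fc → Bool} (h : ∀ f ∈ annS p w, Ω f = Ω' f) :
    ANN p w Ω ↔ ANN p w Ω' := by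
  have key : ∀ Ω Ω' : Fc → Bool, (∀ f ∈ annS p w, Ω f = Ω' f) → ANN p w Ω → ANN p w Ω' := by
    intro Ω Ω' h hA
    have hH : ∀ (x y : ℤ) (a b : ℕ), blk x y a b ⊆ annS p w → HC x y a b Ω → HC x y a b Ω' := by
      rintro x y a b hs ⟨u, v, h1, h2, h3, h4, h5, h6⟩
      refine ⟨u, v, h1, h2, h3, h4, by rw [← h u (hs h1)]; exact h5, h6.mono ?_⟩
      rintro z ⟨hz1, hz2⟩
      exact ⟨hz1, by rw [← h z (hs hz1)]; exact hz2⟩
    have hV : ∀ (x y : ℤ) (a b : ℕ), blk x y a b ⊆ annS p w → VC x y a b Ω → VC x y a b Ω' := by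
      rintro x y a b hs ⟨u, v, h1, h2, h3, h4, h5, h6⟩
      refine ⟨u, v, h1, h2, h3, h4, by rw [← h u (hs h1)]; exact h5, h6.mono ?_⟩
      rintro z ⟨hz1, hz2⟩
      exact ⟨hz1, by rw [← h z (hs hz1)]; exact hz2⟩
    obtain ⟨a1, a2, a3, a4⟩ := hA
    refine ⟨hH _ _ _ _ ?_ a1, hH _ _ _ _ ?_ a2, hV _ _ _ _ ?_ a3, hV _ _ _ _ ?_ a4⟩ <;>
    · rintro z ⟨⟨h1, h2⟩, h3, h4⟩
      push_cast at h1 h2 h3 h4
      unfold annS
      rw [Set.mem_ofPred_eq]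
      refine ⟨⟨⟨by omega, by omega⟩, by omega, by omega⟩, ?_⟩
      omega
  exact ⟨key Ω Ω' h, key Ω' Ω (fun f hf => (h f hf).symm)⟩

theorem AN_congr {j : ℕ} {z0 : Fc} {Ω Ω' : Fc → Bool} (h : ∀ f ∈ c.aS j z0, Ω f = Ω' f) :
    c.AN j z0 Ω ↔ c.AN j z0 Ω' :=
  forall_congr' fun d => ANN_congr fun f hf => h f ⟨d, hf⟩

end Pool.Agent.H75.Lv
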