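import Pool.Agent.H75.Lv.Fld
import Pool.Agent.H11.Lv.RST
import Pool.Agent.H29.Lv.Cong
import Pool.Agent.H12.Inst.EVC2
import Pool.Agent.H74.Tri.Glue

set_option autoImplicit false

/-!
# MP_2e6055, module INST (helper75), 9: facts at the first visit of a set
-/

namespace Pool.Agent.H75.Lv

open Pool.Agent.H7.UC Pool.Agent.H74.Tri Pool.Agent.H75.Perc Pool.Agent.H93.SM Pool.Agent.H89.Per
open Pool.Agent.H75.Per (CX IsStop Meas agree_mono agree_iff)
open Pool.Agent.H75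
open Classical

attribute [-instance] instDecidableEqSum

variable {c : Cf}

theorem tip0 (hc : c.Ok) (ω : Finset c.al) :
    St (box c.m c.n) (Om ω) ∧ IsTip (box c.m c.n) (Om ω) p0 :=
  Pool.Agent.H11.Tri.init c.m c.n _ hc.m hc.n (ext_bc _)

theorem unx_box (ω : Finset c.al) (t : ℕ) (z : Fc) :
    unx (box c.m c.n) (Om ω) p0 t z = comp (Pool.Agent.H74.Tri.un (b1 ω) t) z := by
  unfold unx
  congr 1
  ext f
  rw [Pool.Agent.H11.Lv.mem_sd, mem_un]
  rfl

/-- `S` is a connected set of faces of the box which contains `v` -/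
structure Cn (c : Cf) (v : Fc) (S : Finset Fc) : Prop where
  mem : v ∈ S
  sub : S ⊆ box c.m c.n
  conn : ∀ f ∈ S, Jn (↑S : Set Fc) v f

variable {S S' : Finset Fc} {v : Fc} {ω ω' : Finset c.al}

/-- up to the first visit of `S` the faces of `S` are new -/
theorem new_at (hS : S ⊆ box c.m c.n) {t : ℕ} (ht : t ≤ fi S ω) {f : Fc} (hf : f ∈ S) :
    f ∉ Rev (Om ω) p0 t := by
  intro h
  have h0 : f ∉ Rev (Om ω) p0 0 := by
    obtain ⟨x, rfl⟩ := exists_em (hS hf)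
    exact em_not_zero _ x
  obtain ⟨t', h1, h2, h3⟩ := Pool.Agent.H29.Lv.rev_first h h0
  obtain ⟨h4, h5⟩ := before_fi (S := S) (ω := ω) (show t' < fi S ω by omega)
  exact h5 f hf ⟨h4, h2, hS hf, h3⟩

/-- up to the first visit of `S'`, the set `S'` is in the component of `v` -/
theorem sub_later (hS : Cn c v S') {t : ℕ} (ht : t ≤ fi S' ω) :
    S' ⊆ comp (Pool.Agent.H74.Tri.un (b1 ω) t) v := by
  intro f hf
  have hun : ∀ g ∈ S', g ∈ Pool.Agent.H74.Tri.un (b1 ω) t := fun g hg =>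
    mem_un.2 ⟨hS.sub hg, new_at hS.sub ht hg⟩
  exact mem_comp.2 ⟨hun f hf, (hS.conn f hf).mono (fun g hg => by exact_mod_cast hun g hg)⟩

theorem sub_CD (hS : Cn c v S) : S ⊆ CD S v ω := sub_later hS le_rfl

theorem v_CD (hS : Cn c v S) : v ∈ CD S v ω := sub_CD hS hS.mem

theorem v_un (hS : Cn c v S) : v ∈ Pool.Agent.H74.Tri.un (b1 ω) (fi S ω) :=
  comp_sub _ _ (v_CD hS)

theorem CD_box : CD S v ω ⊆ box c.m c.n := fun _ hf => (mem_un.1 (comp_sub _ _ hf)).1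

theorem CD_new {f : Fc} (hf : f ∈ CD S v ω) : f ∉ Rev (Om ω) p0 (fi S ω) :=
  (mem_un.1 (comp_sub _ _ hf)).2

theorem CD_Rg {x : c.V} (hx : em x ∈ CD S v ω) : Sum.inl x ∉ Rg S ω :=
  fun h => CD_new hx (mem_Rg.1 h)

theorem st_CD (hc : c.Ok) (hS : Cn c v S) : St (CD S v ω) (Om ω) :=
  St_un hc.m hc.n (b1 ω) (fi S ω) v (v_un hS)

/-- what is asked at the first visit -/
theorem hit_ask (hc : c.Ok) (h : hit S ω) :
    ph (orb (Om ω) p0 (fi S ω)) ∈ S ∧ asks ω (fi S ω) (ph (orb (Om ω) p0 (fi S ω))) := by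
  obtain ⟨f, hf, h1⟩ := (hit_iff hc).1 h
  have e : ph (orb (Om ω) p0 (fi S ω)) = f := h1.2.1
  rw [e]
  exact ⟨hf, h1⟩

theorem hit_ins (hc : c.Ok) (h : hit S ω) : Ins (box c.m c.n) (Om ω) p0 (fi S ω) :=
  (hit_ask hc h).2.1

theorem tip_CD (hc : c.Ok) (hS : Cn c v S) (h : hit S ω) :
    IsTip (CD S v ω) (Om ω) (orb (Om ω) p0 (fi S ω)) :=
  tip_comp hc.m hc.n (v_un hS) (sub_CD hS (hit_ask hc h).1)

/-! ### The interface after the first visit, in the component -/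

/-- asked in the component, then asked in the box -/
theorem ask_of_CD (hc : c.Ok) (hS : Cn c v S) (h : hit S ω) {i : ℕ} {f : Fc}
    (hf : Ask (CD S v ω) (Om ω) (orb (Om ω) p0 (fi S ω)) i f) : asks ω (fi S ω + i) f := by
  obtain ⟨h1, h2⟩ := tip0 hc ω
  have hR := Pool.Agent.H11.Lv.rst (box c.m c.n) (Om ω) p0 h1 h2 (fi S ω) _ v (hit_ask hc h).2
    (hS.sub hS.mem) (new_at hS.sub le_rfl hS.mem) (by
      rw [unx_box]; exact sub_CD hS (hit_ask hc h).1)
  rw [unx_box] at hR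
  exact hR.2.2.1 i f hf

/-- everything asked before something of the component is asked in the component -/
theorem CD_ask (hc : c.Ok) (hS : Cn c v S) (h : hit S ω) {i j : ℕ} {f g : Fc}
    (hf : asks ω (fi S ω + i) f) (hij : i ≤ j) (hg : asks ω (fi S ω + j) g) (hgD : g ∈ CD S v ω) :
    Ask (CD S v ω) (Om ω) (orb (Om ω) p0 (fi S ω)) i f := by
  obtain ⟨h1, h2⟩ := tip0 hc ω
  have hR := Pool.Agent.H11.Lv.rst (box c.m c.n) (Om ω) p0 h1 h2 (fi S ω) _ v (hit_ask hc h).2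
    (hS.sub hS.mem) (new_at hS.sub le_rfl hS.mem) (by
      rw [unx_box]; exact sub_CD hS (hit_ask hc h).1)
  rw [unx_box] at hR
  exact hR.2.2.2.1 i f j g hf hij hg hgD

/-- components of later times -/
theorem CD_comp (hc : c.Ok) (hS : Cn c v S) (h : hit S ω) {i : ℕ} {z : Fc}
    (hI : Ins (CD S v ω) (Om ω) (orb (Om ω) p0 (fi S ω)) i) (hz : z ∈ CD S v ω)
    (hz' : z ∉ Rev (Om ω) p0 (fi S ω + i)) :
    comp (Pool.Agent.H74.Tri.un (b1 ω) (fi S ω + i)) z =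
      unx (CD S v ω) (Om ω) (orb (Om ω) p0 (fi S ω)) i z := by
  obtain ⟨h1, h2⟩ := tip0 hc ω
  have hR := Pool.Agent.H11.Lv.rst (box c.m c.n) (Om ω) p0 h1 h2 (fi S ω) _ v (hit_ask hc h).2
    (hS.sub hS.mem) (new_at hS.sub le_rfl hS.mem) (by
      rw [unx_box]; exact sub_CD hS (hit_ask hc h).1)
  rw [unx_box] at hR
  have := hR.2.2.2.2 i z hI hz hz'
  rw [unx_box] at this
  exact this

/-- a face revealed between the first visit of `S` and the index `t` of the box was asked -/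
theorem ask_between {t : ℕ} (hI : Ins (box c.m c.n) (Om ω) p0 t) {x : c.V}
    (h1 : em x ∈ Rev (Om ω) p0 t) {s : ℕ} (h2 : em x ∉ Rev (Om ω) p0 s) :
    ∃ i, s ≤ i ∧ i < t ∧ asks ω i (em x) := by
  obtain ⟨t', h3, h4, h5⟩ := Pool.Agent.H29.Lv.rev_first h1 (em_not_zero _ x)
  refine ⟨t', ?_, h3, hI.mono h3.le, h4, em_mem x, h5⟩
  by_contra h6
  push Not at h6
  exact h2 (Rev.mono (show t' + 1 ≤ s by omega) (Pool.Agent.H29.Lv.rev_succ.2 (Or.inr h4.symm)))

/-! ### The fibre -/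

/-- the configurations which agree with `ω` on what is revealed at the first visit -/
theorem fib (hc : c.Ok) {R : Finset c.al} (hR : Rg S ω ⊆ R) (h : ω' ∩ R = ω ∩ R) :
    Agr (Om ω) (Om ω') (fi S ω) ∧ fi S ω' = fi S ω ∧ CD S v ω' = CD S v ω ∧
    (hit S ω' ↔ hit S ω) ∧ orb (Om ω') p0 (fi S ω) = orb (Om ω) p0 (fi S ω) := by
  have hA := agr_Rg (agree_mono h hR)
  have e := fi_agr hc hA
  refine ⟨hA, e, ?_, ?_, hA.orb⟩
  · unfold CD
    rw [e, un_agr hA]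
  · rw [hit_iff hc, hit_iff hc, e]
    constructor
    · rintro ⟨f, hf, h3⟩; exact ⟨f, hf, (hA.asks f).1 h3⟩
    · rintro ⟨f, hf, h3⟩; exact ⟨f, hf, (hA.asks f).2 h3⟩

/-- on the fibre the colours off the component, next to it, are the same -/
theorem fib_col (hA : Agr (Om ω) (Om ω') (fi S ω)) {f : Fc} (hf : f ∉ CD S v ω)
    (ht : tch ↑(CD S v ω) f) : Om ω' f = Om ω f :=
  Om_agr_off hA (tch_comp hf ht)

/-! ### The sets of the model -/

theorem Bx_Cn {s : ℤ} (h : Bx v s ⊆ box c.m c.n) (hs : 0 ≤ s) : Cn c v (Bx v s) :=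
  ⟨mem_Bx.2 (by simp [hs]), h, Pool.Agent.H12.Inst.Bx_conn v s⟩

/-- the used scale: the big box is inside -/
theorem use_box (hc : c.Ok) {j : ℕ} (h : c.use j v) : Bx v (8 * c.rho j) ⊆ box c.m c.n := by
  refine (Bx_sub (sq_near hc j v) ?_).trans h.2.2
  have h1 := hc.hs8 j
  have h2 := hc.hu_le_rho j
  have h3 := hc.hs_pos j
  linarith

theorem use_Cn (hc : c.Ok) {i j : ℕ} (h : c.use j v) (hij : i ≤ j) : Cn c v (Bx v (c.rho i)) :=
  Bx_Cn ((Bx_mono (by linarith [hc.rho_mono hij, hc.rho_pos j])).trans (use_box hc h))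
    (hc.rho_pos i).le

theorem Bx_conn' {z : Fc} {s : ℤ} (hv : v ∈ Bx z s) : ∀ f ∈ Bx z s, Jn (↑(Bx z s) : Set Fc) v f :=
  fun f hf => ((Pool.Agent.H12.Inst.Bx_conn z s v hv).symm (by
    rw [Finset.mem_coe, mem_Bx]
    have := (mem_Bx.1 hv).1
    simp [(abs_nonneg _).trans this])).trans (Pool.Agent.H12.Inst.Bx_conn z s f hf)

theorem En_Cn (hc : c.Ok) {j : ℕ} (h : c.use j v) : Cn c v (c.En j (c.sq j v)) := by
  have h1 : v ∈ c.En j (c.sq j v) := by
    refine Bx_mono ?_ (sq_near hc j v)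
    have h1 := hc.hs8 j
    have h3 := hc.hs_pos j
    linarith
  refine ⟨h1, ?_, Bx_conn' h1⟩
  exact (En_sub hc j v).trans ((Bx_mono (by linarith [hc.rho_pos j])).trans (use_box hc h))

end Pool.Agent.H75.Lv
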